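import Pool.Agent.X40.VAR.V21

/-!
One-sided windows: the double sum over the indices.
-/

set_option autoImplicit false

namespace Pool.Agent.X40.OS

open Finset
open Pool.Agent.H373R2.T7 (pz Vz lamz mem_pz)
open Pool.Agent.TH892.OW (fac_pos fac_inv prod_fac_le pz_mono Vz_pos Vz_anti)
open Pool.Agent.X40.VAR

/-- the indices below the square root -/
noncomputable def JL (m : ℕ) : Finset ℤ := Icc (-(m : ℤ)) (-1)

lemma JL_sub {m : ℕ} {i : ℤ} (h : i ∈ JL m) : i ∈ JJ m := by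
  unfold JL at h
  unfold JJ
  rw [mem_Icc] at h
  rw [mem_filter, mem_Icc]
  omega

lemma mem_JL {m : ℕ} {i : ℤ} (h : i ∈ JL m) : -(m : ℤ) ≤ i ∧ i ≤ -1 := by
  unfold JL at h
  rwa [mem_Icc] at h

lemma JL_card (m : ℕ) : #(JL m) = m := by
  unfold JL
  rw [Int.card_Icc]
  omega

/-- the inner sum -/
lemma inner_sumL (w z m : ℕ) (hw : 2 ≤ w) (K0 ν i : ℤ) (hi : i ∈ JL m) :
    ∑ j ∈ (JL m).erase i, rI w K0 (ν + j) * cc w z (j - i) ≤
      rr w K0 * ((m : ℝ) / PW w * (1 + 2 / w) + 2 * (Vz (2 * m))⁻¹) := by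
  classical
  have hi' := mem_JL hi
  obtain ⟨F, hF⟩ : ∃ F : ℤ → ℝ, F = fun j => rI w K0 (ν + j) * cc w z (j - i) := ⟨_, rfl⟩
  have hF0 : ∀ j, 0 ≤ F j := fun j => by rw [hF]; exact mul_nonneg (rI_nonneg _ _ _) (cc_nonneg _ _ _)
  obtain ⟨H1, hH1⟩ : ∃ H1 : ℕ, (H1 : ℤ) = -1 - i := ⟨(-1 - i).toNat, Int.toNat_of_nonneg (by linarith)⟩
  obtain ⟨H2, hH2⟩ : ∃ H2 : ℕ, (H2 : ℤ) = m + i := ⟨((m : ℤ) + i).toNat, Int.toNat_of_nonneg (by linarith)⟩
  have h1 : ∑ j ∈ (JL m).erase i, F j ≤ ∑ h ∈ Icc 1 H1, F (i + h) + ∑ h ∈ Icc 1 H2, F (i - h) := by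
    have hsub : (JL m).erase i ⊆ (Icc 1 H1).image (fun h : ℕ => i + (h : ℤ)) ∪ (Icc 1 H2).image (fun h : ℕ => i - (h : ℤ)) := by
      intro j hj
      rw [mem_erase] at hj
      have h2 := mem_JL hj.2
      rw [mem_union, mem_image, mem_image]
      rcases lt_or_gt_of_ne hj.1 with h | h
      · right
        refine ⟨(i - j).toNat, ?_, ?_⟩
        · rw [mem_Icc]; omega
        · omega
      · left
        refine ⟨(j - i).toNat, ?_, ?_⟩
        · rw [mem_Icc]; omega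
        · omega
    refine (sum_le_sum_of_subset_of_nonneg hsub (fun j _ _ => hF0 j)).trans ?_
    refine (le_of_eq_of_le (sum_union ?_) ?_)
    · rw [disjoint_left]
      intro j hj hj2
      rw [mem_image] at hj hj2
      obtain ⟨a, ha, rfl⟩ := hj
      obtain ⟨b, hb, hab⟩ := hj2
      rw [mem_Icc] at ha hb
      omega
    · rw [sum_image (fun a _ b _ h => by simpa using h), sum_image (fun a _ b _ h => by simpa using h)]
  have h2 : ∑ h ∈ Icc 1 H1, F (i + h) ≤ rr w K0 * ((H1 : ℝ) / PW w * (1 + 2 / w) + (Vz H1)⁻¹) := by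
    refine le_trans (le_of_eq ?_) (half_sum w z H1 hw K0 (ν + i))
    refine sum_congr rfl fun h _ => ?_
    rw [hF]
    simp only [add_sub_cancel_left]
    congr 2
    ring
  have h3 : ∑ h ∈ Icc 1 H2, F (i - h) ≤ rr w K0 * ((H2 : ℝ) / PW w * (1 + 2 / w) + (Vz H2)⁻¹) := by
    refine le_trans (le_of_eq ?_) (half_sum w z H2 hw K0 (-(ν + i)))
    refine sum_congr rfl fun h _ => ?_
    rw [hF]
    simp only
    have e1 : i - (h : ℤ) - i = -(h : ℤ) := by ring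
    have e2 : -(ν + i) + (h : ℤ) = -(ν + (i - h)) := by ring
    rw [e1, cc_neg, e2, rI_even]
  have hV1 : (Vz H1)⁻¹ ≤ (Vz (2 * m))⁻¹ := Vz_anti (by omega)
  have hV2 : (Vz H2)⁻¹ ≤ (Vz (2 * m))⁻¹ := Vz_anti (by omega)
  have hsum : (H1 : ℝ) + H2 ≤ m := by
    have : (H1 : ℤ) + H2 ≤ m := by rw [hH1, hH2]; linarith
    exact_mod_cast this
  have hr := rr_nonneg w K0
  rw [hF] at h1 h2 h3
  refine h1.trans ((add_le_add h2 h3).trans ?_)
  rw [← mul_add]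
  apply mul_le_mul_of_nonneg_left _ hr
  have hW : (0 : ℝ) < PW w := by exact_mod_cast PW_pos w
  have hw0 : (0 : ℝ) ≤ w := Nat.cast_nonneg w
  have e : (H1 : ℝ) / PW w * (1 + 2 / w) + (H2 : ℝ) / PW w * (1 + 2 / w) ≤ (m : ℝ) / PW w * (1 + 2 / w) := by
    have e1 : (H1 : ℝ) / PW w * (1 + 2 / w) + (H2 : ℝ) / PW w * (1 + 2 / w) = ((H1 : ℝ) + H2) / PW w * (1 + 2 / w) := by ring
    rw [e1]
    gcongr
  linarith

/-- the upper bound -/
theorem sig_upL (w z m : ℕ) (hw : 2 ≤ w) (K0 : ℤ) :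
    ∑ i ∈ JL m, ∑ j ∈ (JL m).erase i, nn w K0 i j * cc w z (j - i) ≤
      m * rr w K0 * (rr w K0 * ((m : ℝ) / PW w * (1 + 2 / w) + 2 * (Vz (2 * m))⁻¹)) := by
  obtain ⟨B, hB⟩ : ∃ B, B = rr w K0 * ((m : ℝ) / PW w * (1 + 2 / w) + 2 * (Vz (2 * m))⁻¹) := ⟨_, rfl⟩
  have hr := rr_nonneg w K0
  rw [← hB]
  have h1 : ∀ i ∈ JL m, ∑ j ∈ (JL m).erase i, nn w K0 i j * cc w z (j - i) ≤ rr w K0 * B := by
    intro i hi
    unfold nn
    simp_rw [sum_mul]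
    rw [sum_comm, ← rr_shift w K0 i, sum_mul]
    refine sum_le_sum fun ν _ => ?_
    have h2 := inner_sumL w z m hw K0 ν i hi
    rw [← hB] at h2
    calc ∑ j ∈ (JL m).erase i, rI w K0 (ν + i) * rI w K0 (ν + j) * cc w z (j - i) =
        rI w K0 (ν + i) * ∑ j ∈ (JL m).erase i, rI w K0 (ν + j) * cc w z (j - i) := by
          rw [mul_sum]
          exact sum_congr rfl fun j _ => by ring
      _ ≤ _ := mul_le_mul_of_nonneg_left h2 (rI_nonneg _ _ _)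
  refine (sum_le_sum h1).trans ?_
  rw [sum_const, JL_card m, nsmul_eq_mul]
  exact le_of_eq (by ring)

/-- the lower bound -/
theorem sig_loL (w z m : ℕ) (K0 : ℤ) :
    ((m : ℝ) * rr w K0) ^ 2 / PW w - m * rr w K0 ≤
      ∑ i ∈ JL m, ∑ j ∈ (JL m).erase i, nn w K0 i j * cc w z (j - i) := by
  have hr := rr_nonneg w K0
  have hW : (0 : ℝ) < PW w := by exact_mod_cast PW_pos w
  have hnn : ∀ i j, 0 ≤ nn w K0 i j := fun i j => sum_nonneg fun ν _ => mul_nonneg (rI_nonneg _ _ _) (rI_nonneg _ _ _)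
  have h1 : ∑ i ∈ JL m, ∑ j ∈ (JL m).erase i, nn w K0 i j ≤ ∑ i ∈ JL m, ∑ j ∈ (JL m).erase i, nn w K0 i j * cc w z (j - i) := by
    refine sum_le_sum fun i _ => sum_le_sum fun j _ => ?_
    have := cc_one w z (j - i)
    nlinarith [hnn i j]
  refine le_trans ?_ h1
  have h2 : ∑ i ∈ JL m, ∑ j ∈ JL m, nn w K0 i j = ∑ ν ∈ range (PW w), (∑ i ∈ JL m, rI w K0 (ν + i)) ^ 2 := by
    unfold nn
    simp_rw [sq, sum_mul_sum]
    rw [sum_comm]
    have : ∀ i ∈ JL m, ∑ j ∈ JL m, ∑ ν ∈ range (PW w), rI w K0 (ν + j) * rI w K0 (ν + i) =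
        ∑ ν ∈ range (PW w), ∑ j ∈ JL m, rI w K0 (ν + j) * rI w K0 (ν + i) := fun i _ => sum_comm
    rw [sum_congr rfl this, sum_comm]
    refine sum_congr rfl fun ν _ => ?_
    rw [sum_comm]
  have h3 : ∑ ν ∈ range (PW w), ∑ i ∈ JL m, rI w K0 (ν + i) = (m : ℝ) * rr w K0 := by
    rw [sum_comm]
    rw [sum_congr rfl fun i _ => rr_shift w K0 i, sum_const, JL_card m, nsmul_eq_mul]
  have h4 := sq_sum_le_card_mul_sum_sq (s := range (PW w)) (f := fun ν => ∑ i ∈ JL m, rI w K0 ((ν : ℤ) + i))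
  rw [h3, card_range] at h4
  have h5 : ∑ i ∈ JL m, ∑ j ∈ JL m, nn w K0 i j = ∑ i ∈ JL m, nn w K0 i i + ∑ i ∈ JL m, ∑ j ∈ (JL m).erase i, nn w K0 i j := by
    rw [← sum_add_distrib]
    refine sum_congr rfl fun i hi => ?_
    rw [add_sum_erase _ _ hi]
  have h6 : ∑ i ∈ JL m, nn w K0 i i = (m : ℝ) * rr w K0 := by
    have : ∀ i ∈ JL m, nn w K0 i i = rr w K0 := by
      intro i _
      rw [← rr_shift w K0 i]
      unfold nn
      exact sum_congr rfl fun ν _ => rI_sq _ _ _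
    rw [sum_congr rfl this, sum_const, JL_card m, nsmul_eq_mul]
  rw [← h2, h5, h6] at h4
  have h7 : ((m : ℝ) * rr w K0) ^ 2 / PW w ≤ (m : ℝ) * rr w K0 +
      ∑ i ∈ JL m, ∑ j ∈ (JL m).erase i, nn w K0 i j := by
    rw [div_le_iff₀ hW]
    linarith
  linarith

end Pool.Agent.X40.OS
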