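import Pool.Agent.X40.OS.O1

/-!
One-sided windows: the second factorial moment in a residue class.
-/

set_option autoImplicit false

namespace Pool.Agent.X40.OS

open Finset Filter
open Pool.Agent.H373R2.T7 (pz Vz lamz mem_pz Vz_inv_small)
open Pool.Agent.TH892.OW (fac_pos fac_inv prod_fac_le pz_mono Vz_pos Vz_anti evt_ll Vz_log one_le_Vz_inv)
open Pool.Agent.H442R2.EHI (evt_log_pow evt_log_ge)
open Pool.Agent.TH892.SW (wt wt_nonneg wt_anti)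
open Pool.Agent.X40.HLK (P1 Mz Mz_nonneg)
open Pool.Agent.X40.VAR

noncomputable def SS2L (w : ℕ) (K0 : ℤ) (A S m : ℕ) : ℝ := ∑ i ∈ JL m, ∑ j ∈ (JL m).erase i, QT (PW w) K0 A S P1 P1 i j

/-- all pairs -/
theorem QQ_sumL : ∃ C1 y0 : ℕ, 1 ≤ C1 ∧ 2 ≤ y0 ∧ ∀ b : ℕ, C1 ≤ b → ∀ w z : ℕ, 2 ≤ w → w ≤ z → y0 ≤ z →
    ∀ (K0 : ℤ) (A S m Y : ℕ), 1 ≤ m → m < A → A ≤ S → 2 * S * (m + 1) + m ^ 2 ≤ Y →
    |∑ i ∈ JL m, ∑ j ∈ (JL m).erase i, QT (PW w) K0 A S (La z) (La z) i j -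
      ((S : ℝ) ^ 2 - (A : ℝ) ^ 2) / (PW w) ^ 2 * ((Vz w)⁻¹ ^ 2 * ∑ i ∈ JL m, ∑ j ∈ (JL m).erase i, nn w K0 i j * cc w z (j - i))| ≤
      3 * (1 / 2 : ℝ) ^ b * (((S : ℝ) ^ 2 - (A : ℝ) ^ 2) / (PW w) ^ 2 *
        ((Vz w)⁻¹ ^ 2 * ∑ i ∈ JL m, ∑ j ∈ (JL m).erase i, nn w K0 i j * cc w z (j - i))) +
      4 * (m : ℝ) ^ 2 * (PW w * (20 * ((S : ℝ) + Y + 1) * (Vz z)⁻¹ ^ 2 * (z : ℝ) ^ (C1 * b))) := by
  obtain ⟨C1, y0, hC1, hy0, h⟩ := QTnu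
  refine ⟨C1, y0, hC1, hy0, fun b hb w z hw hwz hz K0 A S m Y hm hmA hAS hY => ?_⟩
  obtain ⟨D, hD⟩ : ∃ D : ℝ, D = ((S : ℝ) ^ 2 - (A : ℝ) ^ 2) / (PW w : ℕ) ^ 2 := ⟨_, rfl⟩
  obtain ⟨E, hE⟩ : ∃ E : ℝ, E = 20 * ((S : ℝ) + Y + 1) * (Vz z)⁻¹ ^ 2 * (z : ℝ) ^ (C1 * b) := ⟨_, rfl⟩
  rw [← hD, ← hE]
  have hE0 : 0 ≤ E := by rw [hE]; positivity
  obtain ⟨q, hq⟩ : ∃ q : ℝ, q = 3 * (1 / 2 : ℝ) ^ b := ⟨_, rfl⟩
  rw [← hq]
  have hone : ∀ i ∈ JL m, ∀ j ∈ (JL m).erase i, |QT (PW w) K0 A S (La z) (La z) i j -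
      D * ((Vz w)⁻¹ ^ 2 * (nn w K0 i j * cc w z (j - i)))| ≤ q * (D * ((Vz w)⁻¹ ^ 2 * (nn w K0 i j * cc w z (j - i)))) + PW w * E := by
    intro i hi j hj
    have hj' := (mem_erase.1 hj).2
    rw [QT_classes (PW w) (PW_pos w)]
    have e1 : D * ((Vz w)⁻¹ ^ 2 * (nn w K0 i j * cc w z (j - i))) =
        ∑ ν ∈ range (PW w), D * ((Vz w)⁻¹ ^ 2 * (rI w K0 (ν + i) * rI w K0 (ν + j) * cc w z (j - i))) := by
      unfold nn
      rw [← mul_sum, ← mul_sum, ← sum_mul]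
    rw [e1, ← sum_sub_distrib]
    refine (abs_sum_le_sum_abs _ _).trans ?_
    have h2 : ∀ ν ∈ range (PW w), |∑ s ∈ SA A S (PW w) ν, ∑ K ∈ celW (PW w) K0 s, La z (((s : ℤ) + i) ^ 2 - K) * La z (((s : ℤ) + j) ^ 2 - K) -
        D * ((Vz w)⁻¹ ^ 2 * (rI w K0 (ν + i) * rI w K0 (ν + j) * cc w z (j - i)))| ≤
        q * (D * ((Vz w)⁻¹ ^ 2 * (rI w K0 (ν + i) * rI w K0 (ν + j) * cc w z (j - i)))) + E := by
      intro ν hν
      have h3 := h b hb w z hw hwz hz K0 A S m ν Y i j hmA hAS hY (mem_range.1 hν) (JL_sub hi) (JL_sub hj')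
      rw [ind_eq, ← hD, ← hE, ← hq] at h3
      exact h3
    refine (sum_le_sum h2).trans (le_of_eq ?_)
    rw [sum_add_distrib, ← mul_sum, sum_const, card_range, nsmul_eq_mul]
  have e1 : D * ((Vz w)⁻¹ ^ 2 * ∑ i ∈ JL m, ∑ j ∈ (JL m).erase i, nn w K0 i j * cc w z (j - i)) =
      ∑ i ∈ JL m, ∑ j ∈ (JL m).erase i, D * ((Vz w)⁻¹ ^ 2 * (nn w K0 i j * cc w z (j - i))) := by
    simp_rw [mul_sum]
  rw [e1, ← sum_sub_distrib]
  simp_rw [← sum_sub_distrib]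
  refine (abs_sum_le_sum_abs _ _).trans ((sum_le_sum fun i _ => abs_sum_le_sum_abs _ _).trans ?_)
  refine (sum_le_sum fun i hi => sum_le_sum fun j hj => hone i hi j hj).trans ?_
  simp_rw [sum_add_distrib]
  apply add_le_add
  · simp_rw [← mul_sum]
    exact le_rfl
  simp_rw [sum_const, nsmul_eq_mul]
  have h4 : ∀ i ∈ JL m, ((#((JL m).erase i) : ℕ) : ℝ) * (PW w * E) ≤ 2 * m * (PW w * E) := by
    intro i hi
    apply mul_le_mul_of_nonneg_right _ (by positivity)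
    rw [card_erase_of_mem hi, JL_card m]
    exact_mod_cast (by omega : m - 1 ≤ 2 * m)
  refine (sum_le_sum h4).trans ?_
  rw [sum_const, JL_card m, nsmul_eq_mul]
  have h5 : ((m : ℕ) : ℝ) ≤ 2 * m := by exact_mod_cast (by omega : m ≤ 2 * m)
  calc ((m : ℕ) : ℝ) * (2 * m * (PW w * E)) ≤ (2 * m) * (2 * m * (PW w * E)) := mul_le_mul_of_nonneg_right h5 (by positivity)
    _ = _ := by ring

theorem G2L (w : ℕ) (hw : 2 ≤ w) (c0 C0 : ℝ) (hc0 : 0 < c0) (hC0 : 1 ≤ C0) (ε : ℝ) (hε : 0 < ε) : ∃ X0 : ℕ, ∀ X : ℕ, X0 ≤ X →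
    ∀ m : ℕ, c0 * Real.log X ≤ m → (m : ℝ) ≤ C0 * Real.log X → ∀ K0 : ℤ,
      |SS2L w K0 (AA X) (Nat.sqrt X) m - (X : ℝ) / PW w * (2 * m / Real.log X) ^ 2 * HW w K0 ^ 2| ≤
        2 / w * ((X : ℝ) / PW w * (2 * m / Real.log X) ^ 2 * HW w K0 ^ 2) + ε * X := by
  obtain ⟨C1, y0, hC1, hy0, hQQ⟩ := QQ_sumL
  obtain ⟨Cv, hCv, hVlog⟩ := Vz_log
  obtain ⟨Vw, hVw⟩ : ∃ Vw, Vw = (Vz w)⁻¹ := ⟨_, rfl⟩
  have hVw1 : 1 ≤ Vw := by rw [hVw]; exact one_le_Vz_inv w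
  obtain ⟨C5, hC5⟩ : ∃ C5 : ℝ, C5 = 16 * C0 ^ 2 * Vw ^ 2 := ⟨_, rfl⟩
  have hC50 : 0 ≤ C5 := by rw [hC5]; positivity
  obtain ⟨δ, hδd⟩ : ∃ δ, δ = min (1 / 10) (ε / (8 * C5 + 10)) := ⟨_, rfl⟩
  have hδ : 0 < δ := by rw [hδd]; positivity
  have hδ1 : δ ≤ 1 / 10 := by rw [hδd]; exact min_le_left _ _
  have hδε : δ * (8 * C5 + 10) ≤ ε := by
    have : δ ≤ ε / (8 * C5 + 10) := by rw [hδd]; exact min_le_right _ _
    rwa [le_div_iff₀ (by positivity)] at this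
  obtain ⟨b0, hb0⟩ := exists_pow_lt_of_lt_one (show 0 < δ / 3 by positivity) (show (1 / 2 : ℝ) < 1 by norm_num)
  obtain ⟨b, hb⟩ : ∃ b, b = max C1 b0 := ⟨_, rfl⟩
  have hbq : 3 * (1 / 2 : ℝ) ^ b ≤ δ := by
    have h1 : (1 / 2 : ℝ) ^ b ≤ (1 / 2 : ℝ) ^ b0 := by
      apply pow_le_pow_of_le_one (by norm_num) (by norm_num)
      rw [hb]; exact le_max_right _ _
    linarith
  obtain ⟨E, hE1, hA⟩ := partA (PW w) (PW_pos w) C0 hC0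
  obtain ⟨X1, hX1⟩ := hA E le_rfl
  obtain ⟨X2, hX2⟩ := Vz_inv_small E
  obtain ⟨c, hcd⟩ : ∃ c : ℝ, c = 64 * Vw ^ 2 * C0 * Cv / δ + 8 * Vw ^ 2 * C0 / δ + 320 * C0 ^ 2 / δ + 1 / (c0 * δ) + w + y0 + 1 + PW w + 3 := ⟨_, rfl⟩
  have hparts : 0 < 64 * Vw ^ 2 * C0 * Cv / δ ∧ 0 < 8 * Vw ^ 2 * C0 / δ ∧ 0 < 320 * C0 ^ 2 / δ ∧ 0 < 1 / (c0 * δ) := by
    refine ⟨by positivity, by positivity, by positivity, by positivity⟩
  obtain ⟨hp1, hp2, hp3, hp4⟩ := hparts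
  have hc : 0 < c := by rw [hcd]; positivity
  obtain ⟨X3, hX3⟩ := eventually_atTop.1 (evt_G C0 δ c hc (E * (C1 * b) + 7))
  refine ⟨max (max X1 X2) X3, fun X hX m hm1 hm2 K0 => ?_⟩
  have hpA := hX1 X (((le_max_left _ _).trans (le_max_left _ _)).trans hX)
  have hVs := hX2 X (((le_max_right _ _).trans (le_max_left _ _)).trans hX)
  obtain ⟨hL, hll, hLδ, hL12, hLC, hLM, hll4, hLc⟩ := hX3 X ((le_max_right _ _).trans hX)
  obtain ⟨a1, a2, a3, a4, a5, a6, a7, a8⟩ := A_facts X δ C0 hδ hδ1 hC0 hL hll hLδ hL12 m hm2 hLC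
  obtain ⟨f1, f2, f3, f4, -, f6, f7⟩ := Pool.Agent.TH892.OW.S_facts X hL
  obtain ⟨z, hz⟩ : ∃ z, z = ⌊Real.log X ^ E⌋₊ := ⟨_, rfl⟩
  rw [← hz] at hpA
  obtain ⟨A, hAd⟩ : ∃ A, A = AA X := ⟨_, rfl⟩
  obtain ⟨S, hSd⟩ : ∃ S, S = Nat.sqrt X := ⟨_, rfl⟩
  rw [← hSd] at hpA a3 a4 a6 a7 a8 f2 f3 f4 f6 f7 ⊢
  rw [← hAd] at a1 a2 a3 a5 a7 a8 ⊢
  have hpA' := hpA m A hm2 a1 K0
  clear hpA
  obtain ⟨L, hLd⟩ : ∃ L, L = Real.log X := ⟨_, rfl⟩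
  rw [← hLd] at hL hll hLδ hL12 hLC hLM hll4 hLc hm1 hm2 a4 a5 a6 hz hVs hpA' ⊢
  obtain ⟨Y, hY⟩ : ∃ Y : ℕ, Y = 2 * S * (m + 1) + m ^ 2 := ⟨_, rfl⟩
  rw [← hY] at a4 a6
  have hL0 : 0 < L := by linarith
  have hL1 : 1 ≤ L := by linarith
  have hX0 : (0 : ℝ) ≤ X := Nat.cast_nonneg X
  have hm0 : (0 : ℝ) ≤ m := Nat.cast_nonneg m
  have hy0r : (0 : ℝ) ≤ y0 := Nat.cast_nonneg _
  have hwr0 : (0 : ℝ) ≤ w := Nat.cast_nonneg _
  have hPW0 : (0 : ℝ) ≤ PW w := Nat.cast_nonneg _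
  have hLE : L ≤ L ^ E := le_self_pow₀ hL1 (by omega)
  have hzle : (z : ℝ) ≤ L ^ E := by rw [hz]; exact Nat.floor_le (by positivity)
  have hzge : L - 1 ≤ z := by
    have h1 := Nat.lt_floor_add_one (L ^ E)
    rw [← hz] at h1
    linarith
  have hwz : w ≤ z := by
    have : (w : ℝ) ≤ z := by linarith
    exact_mod_cast this
  have hyz : y0 ≤ z := by
    have : (y0 : ℝ) ≤ z := by linarith
    exact_mod_cast this
  have hz1 : 1 ≤ z := by omega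
  have hV := hVs z hz1 hzle
  have hWL : (PW w : ℝ) ≤ L := by linarith
  have hmδ : 1 ≤ δ * m := by
    have h1 : 1 / (c0 * δ) ≤ L := by linarith
    rw [div_le_iff₀ (by positivity)] at h1
    nlinarith
  have hm1' : 1 ≤ m := by
    have : (1 : ℝ) ≤ m := by nlinarith
    exact_mod_cast this
  obtain ⟨MM, hMM⟩ : ∃ MM, MM = ∑ i ∈ JL m, ∑ j ∈ (JL m).erase i, QT (PW w) K0 A S (Mz z) (Mz z) i j := ⟨_, rfl⟩
  obtain ⟨QQ, hQQd⟩ : ∃ QQ, QQ = ∑ i ∈ JL m, ∑ j ∈ (JL m).erase i, QT (PW w) K0 A S (La z) (La z) i j := ⟨_, rfl⟩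
  obtain ⟨Sg, hSg⟩ : ∃ Sg, Sg = ∑ i ∈ JL m, ∑ j ∈ (JL m).erase i, nn w K0 i j * cc w z (j - i) := ⟨_, rfl⟩
  have hq := hQQ b (by rw [hb]; exact le_max_left _ _) w z hw hwz hyz K0 A S m Y hm1' a1 a3 (by rw [hY])
  rw [← hQQd, ← hSg] at hq
  have hQQ0 : 0 ≤ QQ := by
    rw [hQQd]
    unfold QT
    exact sum_nonneg fun i _ => sum_nonneg fun j _ => sum_nonneg fun s _ => sum_nonneg fun K _ =>
      mul_nonneg (La_nonneg _ _) (La_nonneg _ _)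
  have hSg0 : 0 ≤ Sg := by
    rw [hSg]
    refine sum_nonneg fun i _ => sum_nonneg fun j _ => mul_nonneg ?_ (cc_nonneg _ _ _)
    unfold nn
    exact sum_nonneg fun ν _ => mul_nonneg (rI_nonneg _ _ _) (rI_nonneg _ _ _)
  have hrr0 := rr_nonneg w K0
  have hrrle := rr_le w K0
  have hPW1 : (1 : ℝ) ≤ PW w := by exact_mod_cast PW_pos w
  have hpair : ∀ i ∈ JL m, ∀ j ∈ (JL m).erase i, wt Y ^ 2 * QT (PW w) K0 A S (La z) (La z) i j ≤ QT (PW w) K0 A S (Mz z) (Mz z) i j ∧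
      QT (PW w) K0 A S (Mz z) (Mz z) i j ≤ wt A ^ 2 * QT (PW w) K0 A S (La z) (La z) i j := fun i hi j hj =>
    QT_M_La (PW w) K0 A S m z Y a1 a2 (by rw [hY]) i j (JL_sub hi) (JL_sub (mem_erase.1 hj).2)
  have h2 : wt Y ^ 2 * QQ ≤ MM := by
    rw [hQQd, hMM]
    simp_rw [mul_sum]
    exact sum_le_sum fun i hi => sum_le_sum fun j hj => (hpair i hi j hj).1
  have h2' : MM ≤ wt A ^ 2 * QQ := by
    rw [hQQd, hMM]
    simp_rw [mul_sum]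
    exact sum_le_sum fun i hi => sum_le_sum fun j hj => (hpair i hi j hj).2
  have h1 : |SS2L w K0 A S m - MM| ≤ 4 * (m : ℝ) ^ 2 * (X / L ^ 5) := by
    rw [hMM]
    unfold SS2L
    rw [← sum_sub_distrib]
    simp_rw [← sum_sub_distrib]
    refine (abs_sum_le_sum_abs _ _).trans ((sum_le_sum fun i _ => abs_sum_le_sum_abs _ _).trans ?_)
    refine (sum_le_sum fun i hi => sum_le_sum fun j hj => hpA' i j (mem_JJ (JL_sub hi)).1 (mem_JJ (JL_sub (mem_erase.1 hj).2)).1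
      (Ne.symm (mem_erase.1 hj).1)).trans ?_
    simp_rw [sum_const, nsmul_eq_mul]
    have h4 : ∀ i ∈ JL m, ((#((JL m).erase i) : ℕ) : ℝ) * (X / L ^ 5) ≤ 2 * m * (X / L ^ 5) := by
      intro i hi
      apply mul_le_mul_of_nonneg_right _ (by positivity)
      rw [card_erase_of_mem hi, JL_card m]
      exact_mod_cast (by omega : m - 1 ≤ 2 * m)
    refine (sum_le_sum h4).trans ?_
    rw [sum_const, JL_card m, nsmul_eq_mul]
    have h5 : ((m : ℕ) : ℝ) ≤ 2 * m := by exact_mod_cast (by omega : m ≤ 2 * m)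
    calc ((m : ℕ) : ℝ) * (2 * m * (X / L ^ 5)) ≤ (2 * m) * (2 * m * (X / L ^ 5)) :=
          mul_le_mul_of_nonneg_right h5 (by positivity)
      _ = _ := by ring
  have hlo := sig_loL w z m K0
  have hup := sig_upL w z m hw K0
  rw [← hSg] at hlo hup
  obtain ⟨r, hr⟩ : ∃ r, r = rr w K0 := ⟨_, rfl⟩
  obtain ⟨W, hW⟩ : ∃ W : ℝ, W = PW w := ⟨_, rfl⟩
  have hHW : HW w K0 = r * Vw / W := by unfold HW; rw [hr, hVw, hW]
  rw [hHW]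
  rw [← hr] at hrr0 hrrle hlo hup
  rw [← hW] at hrrle hlo hup hPW1 hWL hq ⊢
  rw [← hVw] at hq
  have hW0 : 0 < W := by linarith
  obtain ⟨Vm, hVm⟩ : ∃ Vm, Vm = (Vz (2 * m))⁻¹ := ⟨_, rfl⟩
  rw [← hVm] at hup
  have hVm0 : 0 ≤ Vm := by rw [hVm]; exact (inv_pos.2 (Vz_pos _)).le
  have hw2r : (2 : ℝ) ≤ w := by exact_mod_cast hw
  have hlog1 : 1 ≤ Real.log L := by
    have h6 : Real.log (Real.exp 1) ≤ Real.log L := by
      apply Real.log_le_log (Real.exp_pos 1)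
      have := Real.exp_one_lt_d9
      linarith
    rwa [Real.log_exp] at h6
  have hVmle : Vm ≤ Cv * (2 * Real.log L) ^ 2 := by
    by_cases h3m : 3 ≤ 2 * m
    · have h6 := hVlog (2 * m) h3m
      rw [← hVm] at h6
      refine h6.trans ?_
      apply mul_le_mul_of_nonneg_left _ (by linarith)
      apply pow_le_pow_left₀
      · apply Real.log_nonneg
        push_cast
        have : (1 : ℝ) ≤ m := by exact_mod_cast hm1'
        linarith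
      · have h7 : ((2 * m : ℕ) : ℝ) ≤ L ^ 2 := by
          push_cast
          nlinarith
        have h8 : (0 : ℝ) < ((2 * m : ℕ) : ℝ) := by exact_mod_cast (by omega : 0 < 2 * m)
        have h9 := Real.log_le_log h8 h7
        rw [Real.log_pow] at h9
        push_cast at h9 ⊢
        exact h9
    · have h6 : Vm ≤ (Vz 3)⁻¹ := by rw [hVm]; exact Vz_anti (by omega)
      have h7 := hVlog 3 le_rfl
      refine h6.trans (h7.trans ?_)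
      apply mul_le_mul_of_nonneg_left _ (by linarith)
      apply pow_le_pow_left₀ (Real.log_nonneg (by norm_num))
      have h8 : Real.log ((3 : ℕ) : ℝ) ≤ Real.log L := by
        apply Real.log_le_log (by norm_num)
        push_cast
        linarith
      linarith
  have hmC : (m : ℝ) / L ≤ C0 := by rw [div_le_iff₀ hL0]; exact hm2
  have hmain : (X : ℝ) / W * (4 * (m / 2) / L) ^ 2 * (r * Vw / W) ^ 2 ≤ C5 * X := by
    have k1 : r / W ≤ 1 := by rw [div_le_one hW0]; exact hrrle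
    have k2 : 0 ≤ r / W := by positivity
    have k3 : 0 ≤ (m : ℝ) / L := by positivity
    calc (X : ℝ) / W * (4 * (m / 2) / L) ^ 2 * (r * Vw / W) ^ 2 = X / W * (4 * (m / L) ^ 2 * (Vw ^ 2 * (r / W) ^ 2)) := by ring
      _ ≤ X / 1 * (4 * C0 ^ 2 * (Vw ^ 2 * 1 ^ 2)) := by gcongr
      _ ≤ X / 1 * (16 * C0 ^ 2 * (Vw ^ 2 * 1 ^ 2)) := by gcongr; norm_num
      _ = C5 * X := by rw [hC5]; ring
  have hD1 : ((S : ℝ) ^ 2 - (A : ℝ) ^ 2) / W ^ 2 ≤ X / W ^ 2 := div_le_div_of_nonneg_right a7 (by positivity)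
  have hD2 : (1 - δ) * (X / W ^ 2) ≤ ((S : ℝ) ^ 2 - (A : ℝ) ^ 2) / W ^ 2 := by
    rw [← mul_div_assoc]
    exact div_le_div_of_nonneg_right a8 (by positivity)
  have hSup : Sg ≤ 4 * ((m : ℝ) / 2) ^ 2 * r ^ 2 / W * (1 + 2 / w) + 4 * (m / 2) * r ^ 2 * Vm := by
    refine hup.trans (le_of_eq ?_)
    field_simp
    ring
  have hSlo : (1 - δ) * (4 * ((m : ℝ) / 2) ^ 2 * r ^ 2 / W) - 2 * (m / 2) * r ≤ Sg := by
    refine le_trans ?_ hlo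
    have e7 : 2 * ((m : ℝ) / 2) * r = m * r := by ring
    rw [e7]
    apply sub_le_sub_right
    have e8 : 4 * ((m : ℝ) / 2) ^ 2 * r ^ 2 / W = (m * r) ^ 2 / W := by ring
    rw [e8]
    have e9 : 0 ≤ ((m : ℝ) * r) ^ 2 / W := by positivity
    nlinarith
  have hR1 := small_R1 X W Vw r (m / 2) L Vm δ Cv C0 (Real.log L) hX0 hPW1 hVw1 hrr0 hrrle (by positivity) (by linarith) hL1 hδ hCv hC0 hVm0 hVmle hlog1 (by
    refine le_trans ?_ hll4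
    apply mul_le_mul_of_nonneg_right _ (by positivity)
    linarith)
  have hR2 := small_R2 X W Vw r (m / 2) L δ C0 hX0 hPW1 hVw1 hrr0 hrrle (by positivity) (by linarith) hL1 hδ hC0 (by linarith)
  have he2 := small_e2 X S Y W (Vz z)⁻¹ m L ((z : ℝ) ^ (C1 * b)) δ C0 (E * (C1 * b)) hX0 f4 (by
      have : (100 : ℝ) ≤ S := by exact_mod_cast f6
      linarith) a4 (Nat.cast_nonneg Y) hW0.le hWL
    (inv_pos.2 (Vz_pos z)).le hV hm0 hm2 (by linarith) (by positivity) (by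
      rw [pow_mul L E]
      exact pow_le_pow_left₀ (Nat.cast_nonneg _) hzle _) hδ hC0 (by linarith) hLM
  have he1 : 4 * (m : ℝ) ^ 2 * (X / L ^ 5) ≤ δ * X := by
    have k1 : 320 * C0 ^ 2 / δ ≤ L := by linarith
    rw [div_le_iff₀ hδ] at k1
    calc 4 * (m : ℝ) ^ 2 * (X / L ^ 5) ≤ 4 * (C0 * L) ^ 2 * (X / L ^ 5) := by gcongr
      _ = (4 * C0 ^ 2) * (X / L ^ 3) := by field_simp
      _ ≤ (L * δ) * (X / L ^ 3) := by
          apply mul_le_mul_of_nonneg_right _ (by positivity)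
          have : 0 ≤ C0 ^ 2 := by positivity
          linarith
      _ = δ * (X / L ^ 2) := by field_simp
      _ ≤ δ * X := by
          apply mul_le_mul_of_nonneg_left _ hδ.le
          exact div_le_self hX0 (one_le_pow₀ hL1)
  have key := arG2 (SS2L w K0 A S m) MM QQ Sg (((S : ℝ) ^ 2 - (A : ℝ) ^ 2) / W ^ 2) X W Vw r (m / 2) L (wt A) (wt Y)
    ((1 / 2 : ℝ) ^ b) δ (4 * (m : ℝ) ^ 2 * (X / L ^ 5))
    (4 * (m : ℝ) ^ 2 * (W * (20 * ((S : ℝ) + Y + 1) * (Vz z)⁻¹ ^ 2 * (z : ℝ) ^ (C1 * b))))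
    (4 * (m / 2) * r ^ 2 * Vm) (2 * (m / 2) * r) w (4 * (m / 2) ^ 2 * r ^ 2 / W) C5 hδ hδ1 hL0 hX0 hW0 hw2r (by linarith) h1 h2 h2' hQQ0
    (by convert hq using 2 <;> ring) hbq (by positivity) (by positivity) hSg0 rfl hSup hSlo (by positivity) (by positivity) hD1 hD2
    (wt_nonneg A) a5 a6 hR1 hR2 he1 he2 hmain
  have e10 : 4 * ((m : ℝ) / 2) / L = 2 * m / L := by ring
  rw [e10] at key
  refine key.trans ?_
  apply add_le_add le_rfl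
  exact mul_le_mul_of_nonneg_right hδε hX0

end Pool.Agent.X40.OS
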