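import Pool.Agent.X40.OS.O2

/-!
One-sided windows: the first moment in a residue class.
-/

set_option autoImplicit false

namespace Pool.Agent.X40.OS

open Finset Filter
open Pool.Agent.H373R2.T7 (pz Vz lamz mem_pz Vz_inv_small)
open Pool.Agent.TH892.OW (fac_pos fac_inv prod_fac_le pz_mono Vz_pos Vz_anti evt_ll Vz_log one_le_Vz_inv AP conv_sum ff_AP)
open Pool.Agent.H442R2.EHI (evt_log_pow evt_log_ge)
open Pool.Agent.TH892.SW (ff wt wt_nonneg wt_anti)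
open Pool.Agent.X40.HLK (P1 Mz Mz_nonneg ff_abs)
open Pool.Agent.X40.VAR

noncomputable def SS1L (w : ℕ) (K0 : ℤ) (A S m : ℕ) : ℝ :=
  ∑ i ∈ JL m, ∑ s ∈ Ico A S, ∑ K ∈ celW (PW w) K0 s, P1 (((s : ℤ) + i) ^ 2 - K)

/-- all cells -/
theorem F_sumL : ∃ C1 y0 : ℕ, 1 ≤ C1 ∧ 2 ≤ y0 ∧ ∀ b : ℕ, C1 ≤ b → ∀ w z : ℕ, w ≤ z → y0 ≤ z →
    ∀ (K0 : ℤ) (A S m : ℕ), 1 ≤ m → m < A → A ≤ S →
    |∑ i ∈ JL m, ∑ s ∈ Ico A S, ∑ K ∈ celW (PW w) K0 s, La z (((s : ℤ) + i) ^ 2 - K) -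
      ((S : ℝ) ^ 2 - (A : ℝ) ^ 2) / (PW w) ^ 2 * ((Vz w)⁻¹ * (m * rr w K0))| ≤
      (1 / 2 : ℝ) ^ b * (((S : ℝ) ^ 2 - (A : ℝ) ^ 2) / (PW w) ^ 2 * ((Vz w)⁻¹ * (m * rr w K0))) +
      2 * m * (PW w * (S * (6 * (Vz z)⁻¹ + (z : ℝ) ^ (C1 * b)))) := by
  classical
  obtain ⟨C1, y0, hC1, hy0, h⟩ := FT_asymp
  refine ⟨C1, y0, hC1, hy0, fun b hb w z hwz hz K0 A S m hm hmA hAS => ?_⟩
  obtain ⟨D, hD⟩ : ∃ D : ℝ, D = ((S : ℝ) ^ 2 - (A : ℝ) ^ 2) / (PW w : ℕ) ^ 2 := ⟨_, rfl⟩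
  obtain ⟨E, hE⟩ : ∃ E : ℝ, E = S * (6 * (Vz z)⁻¹ + (z : ℝ) ^ (C1 * b)) := ⟨_, rfl⟩
  rw [← hD, ← hE]
  have hVz0 := inv_pos.2 (Vz_pos z)
  have hE0 : 0 ≤ E := by rw [hE]; positivity
  obtain ⟨q, hq⟩ : ∃ q : ℝ, q = (1 / 2 : ℝ) ^ b := ⟨_, rfl⟩
  rw [← hq]
  have hone : ∀ i ∈ JL m, |∑ s ∈ Ico A S, ∑ K ∈ celW (PW w) K0 s, La z (((s : ℤ) + i) ^ 2 - K) - D * ((Vz w)⁻¹ * rr w K0)| ≤
      q * (D * ((Vz w)⁻¹ * rr w K0)) + PW w * E := by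
    intro i hi
    have e0 : ∑ s ∈ Ico A S, ∑ K ∈ celW (PW w) K0 s, La z (((s : ℤ) + i) ^ 2 - K) =
        ∑ ν ∈ range (PW w), FT (PW w) K0 A S z ν i := by
      unfold FT SA
      rw [sum_fiberwise_of_maps_to]
      intro s _
      rw [mem_range]
      exact Nat.mod_lt _ (PW_pos w)
    have e1 : D * ((Vz w)⁻¹ * rr w K0) = ∑ ν ∈ range (PW w), D * ((Vz w)⁻¹ * rI w K0 ((ν : ℤ) + i)) := by
      rw [← rr_shift w K0 i, mul_sum, mul_sum]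
    rw [e0, e1, ← sum_sub_distrib]
    refine (abs_sum_le_sum_abs _ _).trans ?_
    have h2 : ∀ ν ∈ range (PW w), |FT (PW w) K0 A S z ν i - D * ((Vz w)⁻¹ * rI w K0 ((ν : ℤ) + i))| ≤
        q * (D * ((Vz w)⁻¹ * rI w K0 ((ν : ℤ) + i))) + E := by
      intro ν hν
      have h3 := h b hb z hz (PW w) K0 A S m ν i (mem_range.1 hν) hmA hAS (JL_sub hi)
      rw [Gz1 w z hwz K0 (ν + i), ← hD, ← hE, ← hq] at h3
      have e4 : (if Rw w K0 ((ν : ℤ) + i) then (Vz w)⁻¹ else 0) = (Vz w)⁻¹ * rI w K0 ((ν : ℤ) + i) := by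
        unfold rI
        by_cases h4 : Rw w K0 ((ν : ℤ) + i)
        · rw [if_pos h4, if_pos h4, mul_one]
        · rw [if_neg h4, if_neg h4, mul_zero]
      rw [e4] at h3
      exact h3
    refine (sum_le_sum h2).trans (le_of_eq ?_)
    rw [sum_add_distrib, ← mul_sum, sum_const, card_range, nsmul_eq_mul]
  have e1 : D * ((Vz w)⁻¹ * ((m : ℝ) * rr w K0)) = ∑ _i ∈ JL m, D * ((Vz w)⁻¹ * rr w K0) := by
    rw [sum_const, JL_card m, nsmul_eq_mul]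
    ring
  rw [e1, ← sum_sub_distrib]
  refine (abs_sum_le_sum_abs _ _).trans ((sum_le_sum hone).trans ?_)
  rw [sum_add_distrib, ← mul_sum]
  apply add_le_add le_rfl
  rw [sum_const, JL_card m, nsmul_eq_mul]
  apply mul_le_mul_of_nonneg_right _ (by positivity)
  exact_mod_cast (by omega : m ≤ 2 * m)

/-- the final arithmetic -/
lemma arG1L (SS MM F D X W Vw r m L wA wY q δ e1 e2 C6 : ℝ)
    (hδ : 0 < δ) (hδ1 : δ ≤ 1 / 10) (hL : 0 < L) (hX : 0 ≤ X) (hW : 0 < W) (hVw : 0 ≤ Vw) (hr : 0 ≤ r) (hm : 0 ≤ m)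
    (h1 : |SS - MM| ≤ e1) (h2 : wY * F ≤ MM) (h2' : MM ≤ wA * F) (hF : 0 ≤ F)
    (h3 : |F - D * (Vw * (m * r))| ≤ q * (D * (Vw * (m * r))) + e2) (hq : q ≤ δ) (hq0 : 0 ≤ q)
    (hD : D ≤ X / W ^ 2) (hD' : (1 - δ) * (X / W ^ 2) ≤ D) (he20 : 0 ≤ e2)
    (hwA0 : 0 ≤ wA) (hwA : wA ≤ 2 / L * (1 + δ)) (hwY : 2 / L * (1 - δ) ≤ wY)
    (he1 : e1 ≤ δ * X) (he2' : 2 / L * e2 ≤ δ * X)
    (hC6 : X / W * (2 * m / L) * (r * Vw / W) ≤ C6 * X) :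
    |SS - X / W * (2 * m / L) * (r * Vw / W)| ≤ δ * (8 * C6 + 10) * X := by
  obtain ⟨u, hu⟩ : ∃ u, u = 2 / L := ⟨_, rfl⟩
  obtain ⟨T, hT⟩ : ∃ T, T = X / W ^ 2 * Vw := ⟨_, rfl⟩
  obtain ⟨P, hP⟩ : ∃ P, P = m * r := ⟨_, rfl⟩
  have hu0 : 0 < u := by rw [hu]; positivity
  have hT0 : 0 ≤ T := by rw [hT]; positivity
  have hM : X / W * (2 * m / L) * (r * Vw / W) = u * T * P := by
    rw [hu, hT, hP]
    field_simp
  rw [hM] at hC6 ⊢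
  rw [← hu] at he2' hwA hwY
  have hP0 : 0 ≤ P := by rw [hP]; positivity
  have hM0 : 0 ≤ u * T * P := by positivity
  have hD0 : 0 ≤ D := by
    refine le_trans ?_ hD'
    have : 0 ≤ X / W ^ 2 := by positivity
    apply mul_nonneg _ this
    linarith
  have hDV : D * Vw ≤ T := by
    rw [hT]
    exact mul_le_mul_of_nonneg_right hD hVw
  have hDV' : (1 - δ) * T ≤ D * Vw := by
    rw [hT, ← mul_assoc]
    exact mul_le_mul_of_nonneg_right hD' hVw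
  obtain ⟨Q, hQ⟩ : ∃ Q, Q = m * r := ⟨_, rfl⟩
  rw [← hQ] at h3
  have hQ1 : Q ≤ P := by rw [hQ, hP]
  have hQ2 : (1 - δ) * P ≤ Q := by
    rw [hQ, hP]
    nlinarith [mul_nonneg hm hr]
  have hd0 : 0 ≤ 1 - δ := by linarith
  have hQ0 : 0 ≤ Q := le_trans (by positivity) hQ2
  have h3a := abs_le.1 h3
  have hDQ0 : 0 ≤ D * (Vw * Q) := by positivity
  have up : MM ≤ u * T * P + 4 * δ * (u * T * P) + 2 * (δ * X) := by
    have k1 : F ≤ (1 + δ) * (T * P) + e2 := by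
      have k2 : D * (Vw * Q) ≤ T * P := by
        calc D * (Vw * Q) = (D * Vw) * Q := by ring
          _ ≤ T * P := mul_le_mul hDV hQ1 hQ0 hT0
      have k3 : (1 + δ) * (D * (Vw * Q)) ≤ (1 + δ) * (T * P) := mul_le_mul_of_nonneg_left k2 (by linarith)
      have k4 : q * (D * (Vw * Q)) ≤ δ * (D * (Vw * Q)) := mul_le_mul_of_nonneg_right hq hDQ0
      linarith [h3a.2]
    have k5 : MM ≤ (u * (1 + δ)) * ((1 + δ) * (T * P) + e2) := by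
      refine h2'.trans ?_
      exact mul_le_mul hwA k1 hF (by positivity)
    have k6 : (u * (1 + δ)) * ((1 + δ) * (T * P) + e2) = (1 + δ) ^ 2 * (u * T * P) + (1 + δ) * (u * e2) := by ring
    have k7 : (1 + δ) ^ 2 ≤ 1 + 4 * δ := by nlinarith
    have k8 : (1 + δ) ^ 2 * (u * T * P) ≤ (1 + 4 * δ) * (u * T * P) := mul_le_mul_of_nonneg_right k7 hM0
    have k9 : (1 + δ) * (u * e2) ≤ 2 * (δ * X) := mul_le_mul (by linarith) he2' (by positivity) (by norm_num)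
    rw [k6] at k5
    linarith
  have lo : (1 - 4 * δ) * (u * T * P) - δ * X ≤ MM := by
    have k1 : (1 - δ) ^ 3 * (T * P) - e2 ≤ F := by
      have k2 : (1 - δ) * T * ((1 - δ) * P) ≤ (D * Vw) * Q := mul_le_mul hDV' hQ2 (by positivity) (by positivity)
      have k3 : (1 - δ) * ((1 - δ) * T * ((1 - δ) * P)) ≤ (1 - δ) * ((D * Vw) * Q) := mul_le_mul_of_nonneg_left k2 hd0
      have k4 : q * (D * (Vw * Q)) ≤ δ * (D * (Vw * Q)) := mul_le_mul_of_nonneg_right hq hDQ0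
      nlinarith [h3a.1]
    have k5 : (u * (1 - δ)) * ((1 - δ) ^ 3 * (T * P) - e2) ≤ MM := by
      have k6 : (u * (1 - δ)) * ((1 - δ) ^ 3 * (T * P) - e2) ≤ (u * (1 - δ)) * F := mul_le_mul_of_nonneg_left k1 (by positivity)
      exact k6.trans ((mul_le_mul_of_nonneg_right hwY hF).trans h2)
    have k6 : (u * (1 - δ)) * ((1 - δ) ^ 3 * (T * P) - e2) = (1 - δ) ^ 4 * (u * T * P) - (1 - δ) * (u * e2) := by ring
    have k7 : 1 - 4 * δ ≤ (1 - δ) ^ 4 := by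
      have := one_add_mul_le_pow (show (-2 : ℝ) ≤ -δ by linarith) 4
      have e : (1 : ℝ) + -δ = 1 - δ := by ring
      rw [e] at this
      push_cast at this
      linarith
    have k8 : (1 - 4 * δ) * (u * T * P) ≤ (1 - δ) ^ 4 * (u * T * P) := mul_le_mul_of_nonneg_right k7 hM0
    have k9 : (1 - δ) * (u * e2) ≤ 1 * (δ * X) := mul_le_mul (by linarith) he2' (by positivity) (by norm_num)
    rw [k6] at k5
    linarith
  have h1a := abs_le.1 h1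
  have hδM : δ * (u * T * P) ≤ δ * (C6 * X) := mul_le_mul_of_nonneg_left hC6 hδ.le
  have hδX : 0 ≤ δ * X := by positivity
  have e5 : δ * (8 * C6 + 10) * X = 8 * (δ * (C6 * X)) + 10 * (δ * X) := by ring
  have e6 : 0 ≤ δ * (u * T * P) := by positivity
  rw [abs_le, e5]
  constructor <;> linarith [h1a.1, h1a.2]

theorem G1L (w : ℕ) (c0 C0 : ℝ) (hc0 : 0 < c0) (hC0 : 1 ≤ C0) (ε : ℝ) (hε : 0 < ε) : ∃ X0 : ℕ, ∀ X : ℕ, X0 ≤ X →
    ∀ m : ℕ, c0 * Real.log X ≤ m → (m : ℝ) ≤ C0 * Real.log X → ∀ K0 : ℤ,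
      |SS1L w K0 (AA X) (Nat.sqrt X) m - (X : ℝ) / PW w * (2 * m / Real.log X) * HW w K0| ≤ ε * X := by
  obtain ⟨C1, y0, hC1, hy0, hF⟩ := F_sumL
  obtain ⟨Vw, hVw⟩ : ∃ Vw, Vw = (Vz w)⁻¹ := ⟨_, rfl⟩
  have hVw1 : 1 ≤ Vw := by rw [hVw]; exact one_le_Vz_inv w
  obtain ⟨C6, hC6⟩ : ∃ C6 : ℝ, C6 = 4 * C0 * Vw := ⟨_, rfl⟩
  have hC60 : 0 ≤ C6 := by rw [hC6]; positivity
  obtain ⟨δ, hδd⟩ : ∃ δ, δ = min (1 / 10) (ε / (8 * C6 + 10)) := ⟨_, rfl⟩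
  have hδ : 0 < δ := by rw [hδd]; positivity
  have hδ1 : δ ≤ 1 / 10 := by rw [hδd]; exact min_le_left _ _
  have hδε : δ * (8 * C6 + 10) ≤ ε := by
    have : δ ≤ ε / (8 * C6 + 10) := by rw [hδd]; exact min_le_right _ _
    rwa [le_div_iff₀ (by positivity)] at this
  obtain ⟨b0, hb0⟩ := exists_pow_lt_of_lt_one hδ (show (1 / 2 : ℝ) < 1 by norm_num)
  obtain ⟨b, hb⟩ : ∃ b, b = max C1 b0 := ⟨_, rfl⟩
  have hbq : (1 / 2 : ℝ) ^ b ≤ δ := by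
    have h1 : (1 / 2 : ℝ) ^ b ≤ (1 / 2 : ℝ) ^ b0 := by
      apply pow_le_pow_of_le_one (by norm_num) (by norm_num)
      rw [hb]; exact le_max_right _ _
    linarith
  obtain ⟨E0, hA⟩ := ff_AP 6
  obtain ⟨E, hE⟩ : ∃ E, E = E0 + 1 := ⟨_, rfl⟩
  obtain ⟨X1, hX1⟩ := hA E (by omega)
  obtain ⟨X2, hX2⟩ := Vz_inv_small E
  obtain ⟨c, hcd⟩ : ∃ c : ℝ, c = 320 * C0 ^ 2 / δ + 1 / (c0 * δ) + w + y0 + 1 + PW w + 3 := ⟨_, rfl⟩
  have hp3 : 0 < 320 * C0 ^ 2 / δ := by positivity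
  have hp4 : 0 < 1 / (c0 * δ) := by positivity
  have hc : 0 < c := by rw [hcd]; positivity
  obtain ⟨X3, hX3⟩ := eventually_atTop.1 (evt_G C0 δ c hc (E * (C1 * b) + 7))
  refine ⟨max (max X1 X2) X3, fun X hX m hm1 hm2 K0 => ?_⟩
  obtain ⟨-, hpA⟩ := hX1 X (((le_max_left _ _).trans (le_max_left _ _)).trans hX)
  have hVs := hX2 X (((le_max_right _ _).trans (le_max_left _ _)).trans hX)
  obtain ⟨hL, hll, hLδ, hL12, hLC, hLM, hll4, hLc⟩ := hX3 X ((le_max_right _ _).trans hX)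
  obtain ⟨a1, a2, a3, a4, a5, a6, a7, a8⟩ := A_facts X δ C0 hδ hδ1 hC0 hL hll hLδ hL12 m hm2 hLC
  obtain ⟨f1, f2, f3, f4, -, f6, f7⟩ := Pool.Agent.TH892.OW.S_facts X hL
  obtain ⟨z, hz⟩ : ∃ z, z = ⌊Real.log X ^ E⌋₊ := ⟨_, rfl⟩
  rw [← hz] at hpA
  obtain ⟨A, hAd⟩ : ∃ A, A = AA X := ⟨_, rfl⟩
  obtain ⟨S, hSd⟩ : ∃ S, S = Nat.sqrt X := ⟨_, rfl⟩
  rw [← hSd] at a3 a4 a6 a7 a8 f2 f3 f4 f6 f7 ⊢
  rw [← hAd] at a1 a2 a3 a5 a7 a8 ⊢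
  obtain ⟨L, hLd⟩ : ∃ L, L = Real.log X := ⟨_, rfl⟩
  rw [← hLd] at hL hll hLδ hL12 hLC hLM hll4 hLc hm1 hm2 a4 a5 a6 hz hVs hpA ⊢
  obtain ⟨Y, hY⟩ : ∃ Y : ℕ, Y = 2 * S * (m + 1) + m ^ 2 := ⟨_, rfl⟩
  rw [← hY] at a4 a6
  have hL0 : 0 < L := by linarith
  have hL1 : 1 ≤ L := by linarith
  have hXr : (1 : ℝ) ≤ X := by exact_mod_cast f1
  have hX0 : (0 : ℝ) ≤ X := Nat.cast_nonneg X
  have hm0 : (0 : ℝ) ≤ m := Nat.cast_nonneg m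
  have hy0r : (0 : ℝ) ≤ y0 := Nat.cast_nonneg _
  have hwr0 : (0 : ℝ) ≤ w := Nat.cast_nonneg _
  have hPW0 : (0 : ℝ) ≤ PW w := Nat.cast_nonneg _
  have hS100 : (100 : ℝ) ≤ S := by exact_mod_cast f6
  have hLE : L ≤ L ^ E := le_self_pow₀ hL1 (by omega)
  have hzle : (z : ℝ) ≤ L ^ E := by rw [hz]; exact Nat.floor_le (by positivity)
  have hzge : L - 1 ≤ z := by
    have h1 := Nat.lt_floor_add_one (L ^ E)
    rw [← hz] at h1
    linarith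
  have hwz : w ≤ z := by
    have : (w : ℝ) ≤ z := by linarith
    exact_mod_cast this
  have hyz : y0 ≤ z := by
    have : (y0 : ℝ) ≤ z := by linarith
    exact_mod_cast this
  have hz1 : 1 ≤ z := by omega
  have hV := hVs z hz1 hzle
  have hWL : (PW w : ℝ) ≤ L := by linarith
  have hmδ : 1 ≤ δ * m := by
    have h1 : 1 / (c0 * δ) ≤ L := by linarith
    rw [div_le_iff₀ (by positivity)] at h1
    nlinarith
  have hm1' : 1 ≤ m := by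
    have : (1 : ℝ) ≤ m := by nlinarith
    exact_mod_cast this
  have hYS : √(X : ℝ) ≤ Y := by
    rw [hY]; push_cast
    nlinarith
  have hYX : Y ≤ X := by
    have h1 : (Y : ℝ) ≤ X := by
      have h2 : L ^ 2 ≤ √(X : ℝ) := by
        refine le_trans ?_ hL12
        exact pow_le_pow_right₀ hL1 (by norm_num)
      calc (Y : ℝ) ≤ S * L ^ 2 := a4
        _ ≤ √(X : ℝ) * √(X : ℝ) := mul_le_mul f4 h2 (by positivity) (Real.sqrt_nonneg _)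
        _ = X := Real.mul_self_sqrt hX0
    exact_mod_cast h1
  have hAPW := hpA Y hYS hYX (PW w) (PW_pos w)
  obtain ⟨MM, hMM⟩ : ∃ MM, MM = ∑ i ∈ JL m, ∑ s ∈ Ico A S, ∑ K ∈ celW (PW w) K0 s, Mz z (((s : ℤ) + i) ^ 2 - K) := ⟨_, rfl⟩
  obtain ⟨F, hFd⟩ : ∃ F, F = ∑ i ∈ JL m, ∑ s ∈ Ico A S, ∑ K ∈ celW (PW w) K0 s, La z (((s : ℤ) + i) ^ 2 - K) := ⟨_, rfl⟩
  have hq := hF b (by rw [hb]; exact le_max_left _ _) w z hwz hyz K0 A S m hm1' a1 a3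
  rw [← hFd] at hq
  have hF0 : 0 ≤ F := by
    rw [hFd]
    exact sum_nonneg fun i _ => sum_nonneg fun s _ => sum_nonneg fun K _ => La_nonneg _ _
  have h2 : wt Y * F ≤ MM := by
    rw [hFd, hMM, mul_sum]
    refine sum_le_sum fun i hi => ?_
    rw [mul_sum]
    exact sum_le_sum fun s hs => (M_La1 (PW w) K0 A S m z Y s a1 a2 (by rw [hY]) i (JL_sub hi) hs).1
  have h2' : MM ≤ wt A * F := by
    rw [hFd, hMM, mul_sum]
    refine sum_le_sum fun i hi => ?_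
    rw [mul_sum]
    exact sum_le_sum fun s hs => (M_La1 (PW w) K0 A S m z Y s a1 a2 (by rw [hY]) i (JL_sub hi) hs).2
  have h1 : |SS1L w K0 A S m - MM| ≤ 2 * m * (S * (2 * (Y / L ^ 6))) := by
    rw [hMM]
    unfold SS1L
    rw [← sum_sub_distrib]
    refine (abs_sum_le_sum_abs _ _).trans ?_
    have h3 : ∀ i ∈ JL m, |∑ s ∈ Ico A S, ∑ K ∈ celW (PW w) K0 s, P1 (((s : ℤ) + i) ^ 2 - K) -
        ∑ s ∈ Ico A S, ∑ K ∈ celW (PW w) K0 s, Mz z (((s : ℤ) + i) ^ 2 - K)| ≤ S * (2 * (Y / L ^ 6)) := by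
      intro i hi
      rw [← sum_sub_distrib]
      simp_rw [← sum_sub_distrib]
      refine (abs_sum_le_sum_abs _ _).trans ?_
      refine (sum_le_sum fun s hs => ff_cell z Y (Y / L ^ 6) (PW w) (PW_pos w) (fun c N hN => hAPW c N hN) K0 A S m s a1
        (mem_Ico.1 hs).1 (mem_Ico.1 hs).2 (by rw [hY]) i (JL_sub hi)).trans ?_
      rw [sum_const, Nat.card_Ico, nsmul_eq_mul]
      apply mul_le_mul_of_nonneg_right _ (by positivity)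
      exact_mod_cast Nat.sub_le S A
    refine (sum_le_sum h3).trans ?_
    rw [sum_const, JL_card m, nsmul_eq_mul]
    apply mul_le_mul_of_nonneg_right _ (by positivity)
    exact_mod_cast (by omega : m ≤ 2 * m)
  have hrr0 := rr_nonneg w K0
  have hrrle := rr_le w K0
  have hPW1 : (1 : ℝ) ≤ PW w := by exact_mod_cast PW_pos w
  obtain ⟨r, hr⟩ : ∃ r, r = rr w K0 := ⟨_, rfl⟩
  obtain ⟨W, hW⟩ : ∃ W : ℝ, W = PW w := ⟨_, rfl⟩
  have hHW : HW w K0 = r * Vw / W := by unfold HW; rw [hr, hVw, hW]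
  rw [hHW]
  rw [← hr] at hrr0 hrrle hq
  rw [← hW] at hrrle hPW1 hWL hq ⊢
  rw [← hVw] at hq
  have hW0 : 0 < W := by linarith
  have hmC : (m : ℝ) / L ≤ C0 := by rw [div_le_iff₀ hL0]; exact hm2
  have hmain : (X : ℝ) / W * (2 * m / L) * (r * Vw / W) ≤ C6 * X := by
    have k1 : r / W ≤ 1 := by rw [div_le_one hW0]; exact hrrle
    have k2 : 0 ≤ r / W := by positivity
    have k3 : 0 ≤ (m : ℝ) / L := by positivity
    calc (X : ℝ) / W * (2 * m / L) * (r * Vw / W) = X / W * (2 * (m / L) * (Vw * (r / W))) := by ring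
      _ ≤ X / 1 * (2 * C0 * (Vw * 1)) := by gcongr
      _ ≤ X / 1 * (4 * C0 * (Vw * 1)) := by gcongr; norm_num
      _ = C6 * X := by rw [hC6]; ring
  have hD1 : ((S : ℝ) ^ 2 - (A : ℝ) ^ 2) / W ^ 2 ≤ X / W ^ 2 := div_le_div_of_nonneg_right a7 (by positivity)
  have hD2 : (1 - δ) * (X / W ^ 2) ≤ ((S : ℝ) ^ 2 - (A : ℝ) ^ 2) / W ^ 2 := by
    rw [← mul_div_assoc]
    exact div_le_div_of_nonneg_right a8 (by positivity)
  have he2 := small_e3 X S W (Vz z)⁻¹ m L ((z : ℝ) ^ (C1 * b)) δ C0 (E * (C1 * b)) hX0 f4 (by linarith) hW0.le hWL hV hm0 hm2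
    (by linarith) (by
      rw [pow_mul L E]
      exact pow_le_pow_left₀ (Nat.cast_nonneg _) hzle _) hδ (inv_pos.2 (Vz_pos z)).le (by positivity) hC0 (by linarith) hLM
  have he1 : 2 * (m : ℝ) * (S * (2 * (Y / L ^ 6))) ≤ δ * X := by
    have k1 : 320 * C0 ^ 2 / δ ≤ L := by linarith
    rw [div_le_iff₀ hδ] at k1
    calc 2 * (m : ℝ) * (S * (2 * (Y / L ^ 6))) ≤ 2 * (C0 * L) * (S * (2 * (S * L ^ 2 / L ^ 6))) := by gcongr
      _ = (4 * C0) * (S ^ 2 / L ^ 3) := by field_simp; ring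
      _ ≤ (L * δ) * (X / L ^ 3) := by
          apply mul_le_mul _ (div_le_div_of_nonneg_right f2 (by positivity)) (by positivity) (by positivity)
          nlinarith
      _ = δ * (X / L ^ 2) := by field_simp
      _ ≤ δ * X := by
          apply mul_le_mul_of_nonneg_left _ hδ.le
          exact div_le_self hX0 (one_le_pow₀ hL1)
  have hVz0 := (inv_pos.2 (Vz_pos z)).le
  have key := arG1L (SS1L w K0 A S m) MM F (((S : ℝ) ^ 2 - (A : ℝ) ^ 2) / W ^ 2) X W Vw r m L (wt A) (wt Y)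
    ((1 / 2 : ℝ) ^ b) δ (2 * m * (S * (2 * (Y / L ^ 6)))) (2 * m * (W * (S * (6 * (Vz z)⁻¹ + (z : ℝ) ^ (C1 * b))))) C6
    hδ hδ1 hL0 hX0 hW0 (by linarith) hrr0 hm0 h1 h2 h2' hF0 hq hbq (by positivity) hD1 hD2 (by positivity)
    (wt_nonneg A) a5 a6 he1 he2 hmain
  refine key.trans ?_
  exact mul_le_mul_of_nonneg_right hδε hX0

end Pool.Agent.X40.OS
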