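import Pool.Agent.X40.OS.O3

/-!
One-sided windows: from the cells to the number of primes `K - n²`.
-/

set_option autoImplicit false

namespace Pool.Agent.X40.OS

open Finset Filter
open Pool.Agent.H373R2.T7 (pz Vz lamz mem_pz Vz_inv_small)
open Pool.Agent.TH892.OW (primes_int)
open Pool.Agent.X40.HLK (P1 P1_nonneg P1_le)
open Pool.Agent.X40.VAR

/-- the number of `n ≥ 0` with `K - n²` a prime at most `λ √K log K` -/
noncomputable def NO (lam : ℝ) (K : ℕ) : ℝ :=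
  ∑ n ∈ (range (Nat.sqrt K + 1)).filter (fun n : ℕ => (K : ℝ) - (n : ℝ) ^ 2 ≤ lam * √(K : ℝ) * Real.log K), P1 ((n : ℤ) ^ 2 - K)

/-- the part given by the indices in `JL m` -/
noncomputable def NJL (m : ℕ) (K : ℕ) : ℝ := ∑ i ∈ JL m, P1 (((Nat.sqrt K : ℤ) + i) ^ 2 - K)

lemma NO_nonneg (lam : ℝ) (K : ℕ) : 0 ≤ NO lam K := sum_nonneg fun _ _ => P1_nonneg _

lemma NJL_nonneg (m K : ℕ) : 0 ≤ NJL m K := sum_nonneg fun _ _ => P1_nonneg _

lemma NO_low (lam : ℝ) (K m : ℕ) (hm : (m : ℝ) + 1 ≤ lam / 2 * Real.log K) (hs : m ≤ Nat.sqrt K) : NJL m K ≤ NO lam K := by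
  classical
  obtain ⟨h1, h2⟩ := sqrt_bounds K
  unfold NJL NO
  have hpos : ∀ i ∈ JL m, ((((Nat.sqrt K : ℤ) + i).toNat : ℕ) : ℤ) = (Nat.sqrt K : ℤ) + i := by
    intro i hi
    have h3 := mem_JL hi
    apply Int.toNat_of_nonneg
    have : (m : ℤ) ≤ Nat.sqrt K := by exact_mod_cast hs
    linarith
  have e : ∑ i ∈ JL m, P1 (((Nat.sqrt K : ℤ) + i) ^ 2 - K) =
      ∑ n ∈ (JL m).image (fun i => ((Nat.sqrt K : ℤ) + i).toNat), P1 ((n : ℤ) ^ 2 - K) := by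
    rw [sum_image]
    · refine sum_congr rfl fun i hi => ?_
      rw [hpos i hi]
    · intro i hi j hj hij
      have h3 := hpos i hi
      have h4 := hpos j hj
      simp only at hij
      rw [hij] at h3
      linarith
  rw [e]
  apply sum_le_sum_of_subset_of_nonneg _ (fun _ _ _ => P1_nonneg _)
  intro n hn
  rw [mem_image] at hn
  obtain ⟨i, hi, rfl⟩ := hn
  have h3 := hpos i hi
  have h4 := mem_JL hi
  obtain ⟨n, hn⟩ : ∃ n : ℕ, n = ((Nat.sqrt K : ℤ) + i).toNat := ⟨_, rfl⟩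
  rw [← hn] at h3 ⊢
  have h5 : (n : ℝ) = Nat.sqrt K + i := by exact_mod_cast congrArg (fun x : ℤ => (x : ℝ)) h3
  have h6 : -(m : ℝ) ≤ i := by exact_mod_cast h4.1
  have h7 : (i : ℝ) ≤ -1 := by exact_mod_cast h4.2
  rw [mem_filter, mem_range, Nat.lt_succ_iff]
  refine ⟨by omega, ?_⟩
  obtain ⟨s, hs'⟩ : ∃ s : ℝ, s = Nat.sqrt K := ⟨_, rfl⟩
  rw [← hs'] at h1 h2 h5
  have hs0 : 0 ≤ s := by rw [hs']; positivity
  have hK : (K : ℝ) ≤ s ^ 2 + 2 * s := by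
    have h8 := Nat.lt_succ_sqrt' K
    have h9 : K ≤ Nat.sqrt K ^ 2 + 2 * Nat.sqrt K := by
      have e1 : (Nat.sqrt K).succ ^ 2 = Nat.sqrt K ^ 2 + 2 * Nat.sqrt K + 1 := by rw [Nat.succ_eq_add_one]; ring
      omega
    rw [hs']
    exact_mod_cast h9
  have hlog0 : 0 ≤ √(K : ℝ) := Real.sqrt_nonneg _
  have h10 : 2 * √(K : ℝ) * ((m : ℝ) + 1) ≤ 2 * √(K : ℝ) * (lam / 2 * Real.log K) := mul_le_mul_of_nonneg_left hm (by positivity)
  have h11 : 2 * s * ((m : ℝ) + 1) ≤ 2 * √(K : ℝ) * ((m : ℝ) + 1) := by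
    apply mul_le_mul_of_nonneg_right _ (by positivity)
    linarith
  have h12 : (K : ℝ) - (n : ℝ) ^ 2 ≤ 2 * s * ((m : ℝ) + 1) := by
    rw [h5]
    nlinarith [sq_nonneg (i : ℝ)]
  calc (K : ℝ) - (n : ℝ) ^ 2 ≤ 2 * √(K : ℝ) * (lam / 2 * Real.log K) := h12.trans (h11.trans h10)
    _ = _ := by ring

/-- the distances -/
lemma dist_le (lam s L Kr sK n : ℝ) (hs : 1 ≤ s) (hL : 0 ≤ L) (hlam : 0 < lam) (hK1 : s ^ 2 ≤ Kr) (hsK : sK ≤ s + 1)
    (hn : 0 ≤ n) (hns : n ≤ s) (h : Kr - n ^ 2 ≤ lam * sK * L) : s - n ≤ 2 * lam * L := by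
  have h0 : 0 ≤ lam * L := by positivity
  have h1 : (s - n) * s ≤ lam * (s + 1) * L := by
    have h2 : lam * sK * L ≤ lam * (s + 1) * L := by gcongr
    nlinarith
  have h3 : lam * (s + 1) * L ≤ (2 * lam * L) * s := by nlinarith
  exact le_of_mul_le_mul_right (h1.trans h3) (by linarith)

lemma NO_up (lam : ℝ) (hlam : 0 < lam) (K m : ℕ) (hm : lam / 2 * Real.log K + 1 ≤ m) (hK1 : 1 ≤ K)
    (hs : lam * Real.log K + 4 * lam ^ 2 * Real.log K ^ 2 ≤ 2 * Nat.sqrt K) : NO lam K ≤ NJL m K + NC K := by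
  classical
  obtain ⟨h1, h2⟩ := sqrt_bounds K
  have hs1 : (1 : ℝ) ≤ Nat.sqrt K := by
    exact_mod_cast Nat.le_sqrt'.2 (by simpa using hK1)
  have hKr : ((Nat.sqrt K : ℕ) : ℝ) ^ 2 ≤ K := by exact_mod_cast Nat.sqrt_le' K
  have hL0 : 0 ≤ Real.log (K : ℝ) := Real.log_natCast_nonneg K
  unfold NO NJL NC
  have e : ∑ n ∈ (range (Nat.sqrt K + 1)).filter (fun n : ℕ => (K : ℝ) - (n : ℝ) ^ 2 ≤ lam * √(K : ℝ) * Real.log K), P1 ((n : ℤ) ^ 2 - K) =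
      ∑ i ∈ ((range (Nat.sqrt K + 1)).filter (fun n : ℕ => (K : ℝ) - (n : ℝ) ^ 2 ≤ lam * √(K : ℝ) * Real.log K)).image
        (fun n : ℕ => (n : ℤ) - Nat.sqrt K), P1 (((Nat.sqrt K : ℤ) + i) ^ 2 - K) := by
    rw [sum_image (fun a _ b _ h => by simpa using h)]
    refine sum_congr rfl fun n _ => ?_
    congr 2
    ring
  rw [e]
  have h3 : ∀ (i : ℤ), i ∈ ((range (Nat.sqrt K + 1)).filter (fun n : ℕ => (K : ℝ) - (n : ℝ) ^ 2 ≤ lam * √(K : ℝ) * Real.log K)).image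
      (fun n : ℕ => (n : ℤ) - Nat.sqrt K) → i ∈ insert 0 (JL m) := by
    intro i hi
    rw [mem_image] at hi
    obtain ⟨n, hn, rfl⟩ := hi
    rw [mem_filter, mem_range, Nat.lt_succ_iff] at hn
    obtain ⟨hn1, hn2⟩ := hn
    have hn1r : (n : ℝ) ≤ Nat.sqrt K := by exact_mod_cast hn1
    have hn0 : (0 : ℝ) ≤ n := Nat.cast_nonneg n
    have h4 := dist_le lam (Nat.sqrt K) (Real.log K) K (√(K : ℝ)) n hs1 hL0 hlam hKr h2 hn0 hn1r hn2
    have h5 : (Nat.sqrt K : ℝ) - n ≤ m := by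
      obtain ⟨s, hs'⟩ : ∃ s : ℝ, s = Nat.sqrt K := ⟨_, rfl⟩
      obtain ⟨L, hL'⟩ : ∃ L : ℝ, L = Real.log K := ⟨_, rfl⟩
      rw [← hs'] at hs1 hKr h2 hn1r h4 hs ⊢
      rw [← hL'] at hL0 h4 hs hn2 hm
      refine le_trans ?_ hm
      have h6 : 2 * s * (s - n) ≤ lam * (s + 1) * L + (s - n) ^ 2 := by
        have h7 : lam * √(K : ℝ) * L ≤ lam * (s + 1) * L := by gcongr
        nlinarith
      have h8 : (s - n) ^ 2 ≤ (2 * lam * L) ^ 2 := pow_le_pow_left₀ (by linarith) h4 2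
      have h9 : 2 * s * (s - n) ≤ 2 * s * (lam / 2 * L + 1) := by nlinarith
      exact le_of_mul_le_mul_left h9 (by linarith)
    have h6 : -(m : ℤ) ≤ (n : ℤ) - Nat.sqrt K := by
      have : -(m : ℝ) ≤ (n : ℝ) - Nat.sqrt K := by linarith
      exact_mod_cast this
    rw [mem_insert]
    unfold JL
    rw [mem_Icc]
    omega
  refine (sum_le_sum_of_subset_of_nonneg (fun i hi => h3 i hi) (fun _ _ _ => P1_nonneg _)).trans ?_
  rw [sum_insert]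
  · rw [add_zero]
    have := P1_nonneg (((Nat.sqrt K : ℤ) + 1) ^ 2 - K)
    linarith
  · intro hc
    have := (mem_JL hc).2
    omega

lemma NO_triv (lam B : ℝ) (hlam : 0 < lam) (K : ℕ) (hB : Real.log K ≤ B) (hB0 : 0 ≤ B) : NO lam K ≤ 2 * lam * B + 1 := by
  classical
  have hB' : (0 : ℝ) ≤ 2 * lam * B := by positivity
  rcases Nat.eq_zero_or_pos K with h0 | hK1
  · subst h0
    unfold NO
    refine (sum_le_sum fun i _ => P1_le _).trans ?_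
    rw [sum_const, nsmul_eq_mul, mul_one]
    have h1 : #((range (Nat.sqrt 0 + 1)).filter (fun n : ℕ => ((0 : ℕ) : ℝ) - (n : ℝ) ^ 2 ≤ lam * √((0 : ℕ) : ℝ) * Real.log ((0 : ℕ) : ℝ))) ≤ 1 := by
      refine (card_filter_le _ _).trans ?_
      rw [card_range]
      simp
    have h2 : ((#((range (Nat.sqrt 0 + 1)).filter (fun n : ℕ => ((0 : ℕ) : ℝ) - (n : ℝ) ^ 2 ≤ lam * √((0 : ℕ) : ℝ) * Real.log ((0 : ℕ) : ℝ))) : ℕ) : ℝ) ≤ 1 := by
      exact_mod_cast h1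
    linarith
  obtain ⟨h1, h2⟩ := sqrt_bounds K
  have hs1 : (1 : ℝ) ≤ Nat.sqrt K := by
    exact_mod_cast Nat.le_sqrt'.2 (by rw [one_pow]; exact hK1)
  have hKr : ((Nat.sqrt K : ℕ) : ℝ) ^ 2 ≤ K := by exact_mod_cast Nat.sqrt_le' K
  have hL0 : 0 ≤ Real.log (K : ℝ) := Real.log_natCast_nonneg K
  unfold NO
  refine (sum_le_sum fun i _ => P1_le _).trans ?_
  rw [sum_const, nsmul_eq_mul, mul_one]
  have h3 : (range (Nat.sqrt K + 1)).filter (fun n : ℕ => (K : ℝ) - (n : ℝ) ^ 2 ≤ lam * √(K : ℝ) * Real.log K) ⊆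
      (Icc (Nat.sqrt K - ⌊2 * lam * B⌋₊) (Nat.sqrt K)) := by
    intro n hn
    rw [mem_filter, mem_range, Nat.lt_succ_iff] at hn
    obtain ⟨hn1, hn2⟩ := hn
    have hn1r : (n : ℝ) ≤ Nat.sqrt K := by exact_mod_cast hn1
    have hn0 : (0 : ℝ) ≤ n := Nat.cast_nonneg n
    have h4 := dist_le lam (Nat.sqrt K) (Real.log K) K (√(K : ℝ)) n hs1 hL0 hlam hKr h2 hn0 hn1r hn2
    have h5 : ((Nat.sqrt K - n : ℕ) : ℝ) ≤ 2 * lam * B := by
      rw [Nat.cast_sub hn1]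
      refine h4.trans ?_
      gcongr
    have h6 : Nat.sqrt K - n ≤ ⌊2 * lam * B⌋₊ := Nat.le_floor h5
    rw [mem_Icc]
    omega
  have h4 := card_le_card h3
  rw [Nat.card_Icc] at h4
  have h5 : #((range (Nat.sqrt K + 1)).filter (fun n : ℕ => (K : ℝ) - (n : ℝ) ^ 2 ≤ lam * √(K : ℝ) * Real.log K)) ≤ ⌊2 * lam * B⌋₊ + 1 := by
    omega
  have h6 : ((#((range (Nat.sqrt K + 1)).filter (fun n : ℕ => (K : ℝ) - (n : ℝ) ^ 2 ≤ lam * √(K : ℝ) * Real.log K)) : ℕ) : ℝ) ≤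
      (⌊2 * lam * B⌋₊ : ℝ) + 1 := by exact_mod_cast h5
  have h7 := Nat.floor_le hB'
  linarith

/-- the moments of `NJL` over the cells -/
lemma CC_NJL (w : ℕ) (K0 : ℤ) (A S m : ℕ) (hAS : A ≤ S) :
    CC (PW w) K0 A S (NJL m) = SS1L w K0 A S m ∧ CC (PW w) K0 A S (fun K => NJL m K ^ 2) = SS1L w K0 A S m + SS2L w K0 A S m := by
  classical
  have hsq : ∀ v : ℤ, P1 v * P1 v = P1 v := by intro v; unfold P1; split_ifs <;> norm_num
  constructor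
  · unfold CC
    rw [cells_sum _ A S hAS]
    have h1 : ∀ s ∈ Ico A S, ∑ K ∈ Icc (s ^ 2) (s ^ 2 + 2 * s), (if ((PW w : ℕ) : ℤ) ∣ (K : ℤ) - K0 then NJL m K else 0) =
        ∑ K ∈ celW (PW w) K0 s, ∑ i ∈ JL m, P1 (((s : ℤ) + i) ^ 2 - K) := by
      intro s _
      rw [← cell_cast]
      refine sum_congr rfl fun K hK => ?_
      unfold NJL
      rw [sqrt_cell s K hK]
    rw [sum_congr rfl h1]
    unfold SS1L
    rw [sum_comm]
    refine sum_congr rfl fun s _ => ?_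
    rw [sum_comm]
  · unfold CC
    rw [cells_sum _ A S hAS]
    have h1 : ∀ s ∈ Ico A S, ∑ K ∈ Icc (s ^ 2) (s ^ 2 + 2 * s), (if ((PW w : ℕ) : ℤ) ∣ (K : ℤ) - K0 then NJL m K ^ 2 else 0) =
        ∑ K ∈ celW (PW w) K0 s, ∑ i ∈ JL m, (P1 (((s : ℤ) + i) ^ 2 - K) +
          ∑ j ∈ (JL m).erase i, P1 (((s : ℤ) + i) ^ 2 - K) * P1 (((s : ℤ) + j) ^ 2 - K)) := by
      intro s _
      rw [← cell_cast (PW w) K0 s (fun K => ∑ i ∈ JL m, (P1 (((s : ℤ) + i) ^ 2 - K) +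
          ∑ j ∈ (JL m).erase i, P1 (((s : ℤ) + i) ^ 2 - K) * P1 (((s : ℤ) + j) ^ 2 - K)))]
      refine sum_congr rfl fun K hK => ?_
      unfold NJL
      rw [sqrt_cell s K hK]
      congr 1
      rw [sq, sum_mul_sum]
      refine sum_congr rfl fun i hi => ?_
      rw [← add_sum_erase _ _ hi, hsq]
    rw [sum_congr rfl h1]
    have h2 : ∀ s ∈ Ico A S, ∑ K ∈ celW (PW w) K0 s, ∑ i ∈ JL m, (P1 (((s : ℤ) + i) ^ 2 - K) +
          ∑ j ∈ (JL m).erase i, P1 (((s : ℤ) + i) ^ 2 - K) * P1 (((s : ℤ) + j) ^ 2 - K)) =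
        ∑ i ∈ JL m, (∑ K ∈ celW (PW w) K0 s, P1 (((s : ℤ) + i) ^ 2 - K) +
          ∑ j ∈ (JL m).erase i, ∑ K ∈ celW (PW w) K0 s, P1 (((s : ℤ) + i) ^ 2 - K) * P1 (((s : ℤ) + j) ^ 2 - K)) := by
      intro s _
      rw [sum_comm]
      refine sum_congr rfl fun i _ => ?_
      rw [sum_add_distrib]
      congr 1
      rw [sum_comm]
    rw [sum_congr rfl h2, sum_comm]
    unfold SS1L SS2L QT
    rw [← sum_add_distrib]
    refine sum_congr rfl fun i _ => ?_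
    rw [sum_add_distrib]
    congr 1
    rw [sum_comm]

/-- the version of `CL_le_CC` with a bound only up to `X` -/
lemma CL_le_CC' (W : ℕ) (K0 : ℤ) (A S X : ℕ) (hAS : A ≤ S) (hX : X < (S + 1) ^ 2) (F : ℕ → ℝ) (hF : ∀ K, 0 ≤ F K) (B : ℝ)
    (hB0 : 0 ≤ B) (hB : ∀ K ≤ X, F K ≤ B) : CL W K0 X F ≤ CC W K0 A S F + (A ^ 2 + 2 * S + 1) * B := by
  classical
  have h := CL_le_CC W K0 A S X hAS hX (fun K => if K ≤ X then F K else 0) (fun K => by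
    split_ifs
    · exact hF K
    · exact le_rfl) B (fun K => by
    split_ifs with h
    · exact hB K h
    · exact hB0)
  have h1 : CL W K0 X F = CL W K0 X (fun K => if K ≤ X then F K else 0) := by
    unfold CL
    refine sum_congr rfl fun K hK => ?_
    simp only [if_pos (mem_Icc.1 hK).2]
  rw [h1]
  refine h.trans ?_
  apply add_le_add _ le_rfl
  apply CC_mono
  intro K _
  split_ifs
  · exact le_rfl
  · exact hF K

/-- the sandwich -/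
lemma sandwichL (w : ℕ) (K0 : ℤ) (A S X m1 m2 : ℕ) (lam τ : ℝ) (hlam : 0 < lam) (hτ : 0 < τ) (hA : 1 ≤ A) (hAS : A ≤ S) (hSX : S ^ 2 ≤ X)
    (hXS : X < (S + 1) ^ 2) (hm1 : (m1 : ℝ) + 1 ≤ lam * Real.log A) (hm1A : m1 ≤ A) (hm2 : lam / 2 * Real.log X + 1 ≤ m2)
    (hs : lam * Real.log X + 4 * lam ^ 2 * Real.log X ^ 2 ≤ 2 * A) :
    SS1L w K0 A S m1 ≤ CL (PW w) K0 X (NO lam) ∧
    CL (PW w) K0 X (NO lam) ≤ SS1L w K0 A S m2 + CC (PW w) K0 A S NC + (A ^ 2 + 2 * S + 1) * (2 * lam * Real.log X + 1) ∧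
    SS1L w K0 A S m1 + SS2L w K0 A S m1 ≤ CL (PW w) K0 X (fun K => NO lam K ^ 2) ∧
    CL (PW w) K0 X (fun K => NO lam K ^ 2) ≤ (1 + τ) * (SS1L w K0 A S m2 + SS2L w K0 A S m2) + (1 + 1 / τ) * (2 * CC (PW w) K0 A S NC) +
      (A ^ 2 + 2 * S + 1) * (2 * lam * Real.log X + 1) ^ 2 := by
  obtain ⟨a1, a2⟩ := CC_NJL w K0 A S m1 hAS
  obtain ⟨b1, b2⟩ := CC_NJL w K0 A S m2 hAS
  have hA0 : (0 : ℝ) < A := by exact_mod_cast hA
  have hLX0 : 0 ≤ Real.log (X : ℝ) := Real.log_natCast_nonneg X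
  have hlow : ∀ K, A ^ 2 ≤ K → NJL m1 K ≤ NO lam K := by
    intro K hK
    apply NO_low
    · refine hm1.trans ?_
      have h1 : (A : ℝ) ^ 2 ≤ K := by exact_mod_cast hK
      have h2 := Real.log_le_log (by positivity) h1
      rw [Real.log_pow] at h2
      push_cast at h2
      nlinarith
    · refine hm1A.trans ?_
      exact Nat.le_sqrt'.2 hK
  have hup : ∀ K, A ^ 2 ≤ K → K ≤ X → NO lam K ≤ NJL m2 K + NC K := by
    intro K hK hKX
    have hK0 : 1 ≤ K := by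
      have : 1 ≤ A ^ 2 := Nat.one_le_pow _ _ hA
      omega
    have hKr : (0 : ℝ) < K := by exact_mod_cast hK0
    have h1 : Real.log (K : ℝ) ≤ Real.log X := Real.log_le_log hKr (by exact_mod_cast hKX)
    have h0 : 0 ≤ Real.log (K : ℝ) := Real.log_natCast_nonneg K
    apply NO_up lam hlam K m2 _ hK0
    · have h2 : A ≤ Nat.sqrt K := Nat.le_sqrt'.2 hK
      have h3 : (A : ℝ) ≤ Nat.sqrt K := by exact_mod_cast h2
      have h4 : lam * Real.log K + 4 * lam ^ 2 * Real.log K ^ 2 ≤ lam * Real.log X + 4 * lam ^ 2 * Real.log X ^ 2 := by gcongr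
      linarith
    · refine le_trans ?_ hm2
      have : lam / 2 * Real.log K ≤ lam / 2 * Real.log X := by gcongr
      linarith
  have hbd : ∀ K ≤ X, NO lam K ≤ 2 * lam * Real.log X + 1 := by
    intro K hK
    apply NO_triv lam _ hlam K _ hLX0
    rcases Nat.eq_zero_or_pos K with h0 | hK1
    · rw [h0]; simpa using hLX0
    · exact Real.log_le_log (by exact_mod_cast hK1) (by exact_mod_cast hK)
  have hCC : ∀ F G : ℕ → ℝ, (∀ K, A ^ 2 ≤ K → K ≤ X → F K ≤ G K) → CC (PW w) K0 A S F ≤ CC (PW w) K0 A S G := by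
    intro F G h
    unfold CC
    refine sum_le_sum fun K hK => ?_
    have hK' := mem_Ico.1 hK
    split_ifs
    · exact h K hK'.1 (by omega)
    · exact le_rfl
  have hB0 : 0 ≤ 2 * lam * Real.log X + 1 := by positivity
  refine ⟨?_, ?_, ?_, ?_⟩
  · rw [← a1]
    exact (CC_mono _ _ _ _ _ _ hlow).trans (CC_le_CL _ _ _ _ _ hA hSX _ (fun K => NO_nonneg lam K))
  · rw [← b1]
    refine (CL_le_CC' (PW w) K0 A S X hAS hXS (NO lam) (fun K => NO_nonneg lam K) (2 * lam * Real.log X + 1) hB0 hbd).trans ?_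
    apply add_le_add _ le_rfl
    rw [← CC_add]
    exact hCC _ _ hup
  · rw [← a2]
    refine (CC_mono _ _ _ _ _ (fun K => NO lam K ^ 2) fun K hK => ?_).trans (CC_le_CL _ _ _ _ _ hA hSX _ (fun K => sq_nonneg _))
    exact pow_le_pow_left₀ (NJL_nonneg _ _) (hlow K hK) 2
  · rw [← b2]
    refine (CL_le_CC' (PW w) K0 A S X hAS hXS (fun K => NO lam K ^ 2) (fun K => sq_nonneg _) ((2 * lam * Real.log X + 1) ^ 2)
      (by positivity) (fun K hK => pow_le_pow_left₀ (NO_nonneg _ _) (hbd K hK) 2)).trans ?_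
    apply add_le_add _ le_rfl
    have e1 : (1 + τ) * CC (PW w) K0 A S (fun K => NJL m2 K ^ 2) + (1 + 1 / τ) * (2 * CC (PW w) K0 A S NC) =
        CC (PW w) K0 A S (fun K => (1 + τ) * NJL m2 K ^ 2 + (1 + 1 / τ) * (2 * NC K)) := by
      rw [CC_add, CC_smul, CC_smul, CC_smul]
    rw [e1]
    refine hCC _ _ fun K hK hKX => ?_
    have h1 := hup K hK hKX
    have h2 := NC_nonneg K
    have h3 := NC_le K
    have h4 := NJL_nonneg m2 K
    have h5 : NO lam K ^ 2 ≤ (NJL m2 K + NC K) ^ 2 := pow_le_pow_left₀ (NO_nonneg _ _) h1 2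
    refine h5.trans ?_
    have h6 : NC K ^ 2 ≤ 2 * NC K := by nlinarith
    have h7 : (NJL m2 K + NC K) ^ 2 ≤ (1 + τ) * NJL m2 K ^ 2 + (1 + 1 / τ) * NC K ^ 2 := by
      have h8 : (1 + τ) * NJL m2 K ^ 2 + (1 + 1 / τ) * NC K ^ 2 - (NJL m2 K + NC K) ^ 2 = (τ * NJL m2 K - NC K) ^ 2 / τ := by
        field_simp
        ring
      have h9 : 0 ≤ (τ * NJL m2 K - NC K) ^ 2 / τ := by positivity
      linarith
    have h8 : (1 + 1 / τ) * NC K ^ 2 ≤ (1 + 1 / τ) * (2 * NC K) := mul_le_mul_of_nonneg_left h6 (by positivity)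
    linarith

end Pool.Agent.X40.OS
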