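import Pool.Agent.X40.OS.O4

/-!
One-sided windows: the first two moments in a residue class.
-/

set_option autoImplicit false

namespace Pool.Agent.X40.OS

open Finset Filter
open Pool.Agent.H373R2.T7 (pz Vz lamz mem_pz Vz_inv_small)
open Pool.Agent.TH892.OW (primes_int Vz_pos one_le_Vz_inv evt_ll)
open Pool.Agent.TH892.SW (wt)
open Pool.Agent.H442R2.EHI (evt_log_pow evt_log_ge)
open Pool.Agent.X40.HLK (P1 P1_nonneg P1_le)
open Pool.Agent.X40.VAR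

/-- the size of `A` -/
lemma AA_size (X : ℕ) (lam : ℝ) (hlam : 0 < lam) (hL : 10000 ≤ Real.log X) (hLS : Real.log X ^ 12 ≤ √(X : ℝ))
    (hc : lam + 4 * lam ^ 2 ≤ Real.log X) : lam * Real.log X + 4 * lam ^ 2 * Real.log X ^ 2 ≤ 2 * AA X := by
  obtain ⟨f1, f2, f3, f4, f5, f6, f7⟩ := Pool.Agent.TH892.OW.S_facts X hL
  unfold AA
  obtain ⟨L, hLd⟩ : ∃ L, L = Real.log X := ⟨_, rfl⟩
  rw [← hLd] at hL hLS hc ⊢
  obtain ⟨S, hSd⟩ : ∃ S, S = Nat.sqrt X := ⟨_, rfl⟩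
  rw [← hSd] at f3 ⊢
  obtain ⟨A, hA⟩ : ∃ A : ℕ, A = ⌊(S : ℝ) / L ^ 2⌋₊ := ⟨_, rfl⟩
  rw [← hA]
  have hL0 : 0 < L := by linarith
  have hL1 : 1 ≤ L := by linarith
  have hAge : (S : ℝ) / L ^ 2 < A + 1 := by rw [hA]; exact Nat.lt_floor_add_one _
  have h1 : L ^ 12 ≤ 2 * S := by linarith
  have h2 : L ^ 4 ≤ S / L ^ 2 := by
    rw [le_div_iff₀ (by positivity)]
    have e : L ^ 4 * L ^ 2 = L ^ 6 := by ring
    rw [e]
    have h3 : 2 * L ^ 6 ≤ L ^ 12 := by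
      calc 2 * L ^ 6 ≤ L * L ^ 6 := mul_le_mul_of_nonneg_right (by linarith) (by positivity)
        _ = L ^ 7 := by ring
        _ ≤ L ^ 12 := pow_le_pow_right₀ hL1 (by norm_num)
    linarith
  have h3 : lam * L + 4 * lam ^ 2 * L ^ 2 ≤ L ^ 3 := by
    have h4 : lam * L ≤ lam * L ^ 2 := by
      apply mul_le_mul_of_nonneg_left _ hlam.le
      nlinarith
    calc lam * L + 4 * lam ^ 2 * L ^ 2 ≤ (lam + 4 * lam ^ 2) * L ^ 2 := by linarith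
      _ ≤ L * L ^ 2 := mul_le_mul_of_nonneg_right hc (by positivity)
      _ = L ^ 3 := by ring
  have h4 : L ^ 3 + 1 ≤ L ^ 4 := by
    have h5 : 1 ≤ L ^ 3 := one_le_pow₀ hL1
    have e : L ^ 4 = L * L ^ 3 := by ring
    rw [e]
    nlinarith
  have h5 : 1 ≤ L ^ 4 := one_le_pow₀ hL1
  linarith

theorem CML (w : ℕ) (hw : 2 ≤ w) (lam : ℝ) (hlam : 0 < lam) (ε : ℝ) (hε : 0 < ε) : ∃ X0 : ℕ, ∀ X : ℕ, X0 ≤ X → ∀ K0 : ℤ,
    |CL (PW w) K0 X (NO lam) - (X : ℝ) / PW w * lam * HW w K0| ≤ ε * X ∧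
    |CL (PW w) K0 X (fun K => NO lam K ^ 2) - (X : ℝ) / PW w * (lam * HW w K0 + lam ^ 2 * HW w K0 ^ 2)| ≤
      2 / w * ((X : ℝ) / PW w * (lam ^ 2 * HW w K0 ^ 2)) + ε * X := by
  obtain ⟨V, hV⟩ : ∃ V, V = (Vz w)⁻¹ := ⟨_, rfl⟩
  have hV1 : 1 ≤ V := by rw [hV]; exact one_le_Vz_inv w
  obtain ⟨B, hB⟩ : ∃ B, B = V ^ 2 := ⟨_, rfl⟩
  have hB1 : 1 ≤ B := by rw [hB]; nlinarith
  obtain ⟨u, hu⟩ : ∃ u, u = lam := ⟨_, rfl⟩
  have hu0 : 0 < u := by rw [hu]; positivity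
  obtain ⟨e, he⟩ : ∃ e, e = ε / 30 := ⟨_, rfl⟩
  have he0 : 0 < e := by rw [he]; positivity
  obtain ⟨τ, hτ⟩ : ∃ τ, τ = min 1 (ε / (8 * ((u + 2 * u ^ 2) * B))) := ⟨_, rfl⟩
  have hτ0 : 0 < τ := by rw [hτ]; positivity
  have hτ1 : τ ≤ 1 := by rw [hτ]; exact min_le_left _ _
  have hτ2 : τ * ((u + 2 * u ^ 2) * B) ≤ ε / 8 := by
    have h1 : τ ≤ ε / (8 * ((u + 2 * u ^ 2) * B)) := by rw [hτ]; exact min_le_right _ _
    rw [le_div_iff₀ (by positivity)] at h1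
    linarith
  obtain ⟨δ, hδ⟩ : ∃ δ, δ = min (min (1 / 10) (1 / (2 * lam))) (ε / (20 * lam * (2 * u + 1) * B)) := ⟨_, rfl⟩
  have hδ0 : 0 < δ := by rw [hδ]; positivity
  have hδ1 : δ ≤ 1 / 10 := by rw [hδ]; exact (min_le_left _ _).trans (min_le_left _ _)
  have hδ2 : lam * δ ≤ 1 / 2 := by
    have h1 : δ ≤ 1 / (2 * lam) := by rw [hδ]; exact (min_le_left _ _).trans (min_le_right _ _)
    rw [le_div_iff₀ (by positivity)] at h1
    linarith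
  have hδ3 : lam * δ * ((2 * u + 1) * B) ≤ ε / 20 := by
    have h1 : δ ≤ ε / (20 * lam * (2 * u + 1) * B) := by rw [hδ]; exact min_le_right _ _
    rw [le_div_iff₀ (by positivity)] at h1
    linarith
  obtain ⟨C0, hC0⟩ : ∃ C0, C0 = lam + 1 := ⟨_, rfl⟩
  have hC01 : 1 ≤ C0 := by rw [hC0]; linarith
  have hlam2 : 0 < lam / 4 := by positivity
  obtain ⟨X1, hX1⟩ := G1L w (lam / 4) C0 hlam2 hC01 e he0
  obtain ⟨X2, hX2⟩ := G2L w hw (lam / 4) C0 hlam2 hC01 e he0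
  obtain ⟨ct, hct⟩ : ∃ ct : ℝ, ct = 45 * C0 ^ 2 / e + 600 / e + 600 * (1 + 1 / τ) / e + 20 / lam + 16 + 160 * (2 * u + 1) * B / ε +
    (lam + 4 * lam ^ 2) := ⟨_, rfl⟩
  have hp : 0 ≤ 45 * C0 ^ 2 / e ∧ 0 ≤ 600 / e ∧ 0 ≤ 600 * (1 + 1 / τ) / e ∧ 0 ≤ 20 / lam ∧ 0 ≤ 160 * (2 * u + 1) * B / ε ∧
      0 ≤ lam + 4 * lam ^ 2 := by
    refine ⟨by positivity, by positivity, by positivity, by positivity, by positivity, by positivity⟩
  obtain ⟨hp1, hp2, hp3, hp4, hp5, hp6⟩ := hp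
  have hct0 : 0 < ct := by rw [hct]; linarith
  obtain ⟨X3, hX3⟩ := eventually_atTop.1 (evt_G C0 δ ct hct0 1)
  refine ⟨max (max X1 X2) X3, fun X hX K0 => ?_⟩
  have h1 := hX1 X (((le_max_left _ _).trans (le_max_left _ _)).trans hX)
  have h2 := hX2 X (((le_max_right _ _).trans (le_max_left _ _)).trans hX)
  obtain ⟨hL, hll, hLδ, hL12, hLC, -, -, hLc⟩ := hX3 X ((le_max_right _ _).trans hX)
  obtain ⟨f1, f2, f3, f4, f5, f6, f7⟩ := Pool.Agent.TH892.OW.S_facts X hL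
  have hXS := Nat.lt_succ_sqrt' X
  have hSX := Nat.sqrt_le' X
  obtain ⟨L, hLd⟩ : ∃ L, L = Real.log X := ⟨_, rfl⟩
  have hL0 : 0 < L := by rw [hLd]; linarith
  have hlL : 20 ≤ lam * L := by
    have : 20 / lam ≤ L := by rw [hLd]; linarith
    rw [div_le_iff₀ hlam] at this
    linarith
  obtain ⟨M1, hM1⟩ : ∃ M1 : ℕ, M1 = ⌊lam / 2 * (1 - δ) * L⌋₊ := ⟨_, rfl⟩
  obtain ⟨M2, hM2⟩ : ∃ M2 : ℕ, M2 = ⌊lam / 2 * L⌋₊ := ⟨_, rfl⟩
  have hlδ : 0 ≤ lam / 2 * (1 - δ) * L := by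
    have : 0 ≤ 1 - δ := by linarith
    positivity
  have hM1a : (M1 : ℝ) ≤ lam / 2 * (1 - δ) * L := by rw [hM1]; exact Nat.floor_le hlδ
  have hM1b : lam / 2 * (1 - δ) * L < M1 + 1 := by rw [hM1]; exact Nat.lt_floor_add_one _
  have hM2a : (M2 : ℝ) ≤ lam / 2 * L := by rw [hM2]; exact Nat.floor_le (by positivity)
  have hM2b : lam / 2 * L < M2 + 1 := by rw [hM2]; exact Nat.lt_floor_add_one _
  have hlδL : lam / 2 * δ * L ≤ lam * L / 20 := by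
    have : lam * L * δ ≤ lam * L * (1 / 10) := mul_le_mul_of_nonneg_left hδ1 (by positivity)
    linarith
  have hMge : lam * L / 4 + 2 ≤ M1 := by linarith
  have hM3 : 1 ≤ M1 := by
    have h3 : (0 : ℝ) < M1 := by linarith
    exact_mod_cast h3
  have hm1c : ((M1 - 1 : ℕ) : ℝ) = M1 - 1 := by
    rw [Nat.cast_sub hM3]; norm_num
  have hlδ' : lam / 2 * (1 - δ) * L ≤ lam / 2 * L := by
    have : 0 ≤ lam / 2 * δ * L := by positivity
    linarith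
  have hm1a : lam / 4 * Real.log X ≤ ((M1 - 1 : ℕ) : ℝ) := by rw [hm1c, ← hLd]; linarith
  have hm1b : ((M1 - 1 : ℕ) : ℝ) ≤ C0 * Real.log X := by rw [hm1c, ← hLd, hC0]; linarith
  have hm2a : lam / 4 * Real.log X ≤ ((M2 + 2 : ℕ) : ℝ) := by push_cast; rw [← hLd]; linarith
  have hm2b : ((M2 + 2 : ℕ) : ℝ) ≤ C0 * Real.log X := by push_cast; rw [← hLd, hC0]; linarith
  obtain ⟨a1, a2, a3, -, a5, -, -, -⟩ := A_facts X δ C0 hδ0 hδ1 hC01 hL hll hLδ hL12 (M2 + 2) hm2b hLC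
  obtain ⟨b1, -, -, -, -, -, -, -⟩ := A_facts X δ C0 hδ0 hδ1 hC01 hL hll hLδ hL12 (M1 - 1) hm1b hLC
  have hAsz := AA_size X lam hlam hL hL12 (by linarith)
  have hlogA : (1 - δ) * (L / 2) ≤ Real.log (AA X) := by
    have hA2 : (2 : ℝ) ≤ AA X := by exact_mod_cast a2
    have hlA : 0 < Real.log (AA X : ℝ) := Real.log_pos (by linarith)
    unfold wt at a5
    rw [← hLd] at a5
    have e1 : 2 / L * (1 + δ) = 2 * (1 + δ) / L := by ring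
    rw [e1, div_le_div_iff₀ hlA hL0] at a5
    nlinarith [mul_pos hδ0 hδ0, mul_pos (mul_pos hδ0 hδ0) hlA]
  have hAfl : (AA X : ℝ) ≤ (Nat.sqrt X : ℝ) / Real.log X ^ 2 := by
    unfold AA
    exact Nat.floor_le (by positivity)
  have hS0 : (1 : ℝ) ≤ Nat.sqrt X := by
    have : (100 : ℝ) ≤ Nat.sqrt X := by exact_mod_cast f6
    linarith
  obtain ⟨T1, T2, T3, T4⟩ := trash X (Nat.sqrt X) (AA X) (lam * Real.log X) (Real.log X) C0 e (Real.log (Nat.sqrt X)) (by exact_mod_cast f1)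
    hS0 f2 hAfl (Nat.cast_nonneg _) hL (by rw [← hLd]; positivity) (by rw [← hLd, hC0]; nlinarith) hC01 hL12 he0 (by linarith) f5 (by linarith) τ hτ0 (by linarith)
  have hcc := CC_NC (PW w) K0 (AA X) (Nat.sqrt X) a3 (by omega)
  have hsand := sandwichL w K0 (AA X) (Nat.sqrt X) X (M1 - 1) (M2 + 2) lam τ hlam hτ0 (by omega) a3 hSX hXS
    (by
      rw [hm1c]
      have : lam * ((1 - δ) * (L / 2)) ≤ lam * Real.log (AA X) := mul_le_mul_of_nonneg_left hlogA hlam.le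
      linarith) b1.le (by push_cast; rw [← hLd]; linarith) hAsz
  obtain ⟨s1, s2, s3, s4⟩ := hsand
  have g11 := h1 (M1 - 1) hm1a hm1b K0
  have g12 := h1 (M2 + 2) hm2a hm2b K0
  have g21 := h2 (M1 - 1) hm1a hm1b K0
  have g22 := h2 (M2 + 2) hm2a hm2b K0
  obtain ⟨h, hh⟩ : ∃ h, h = HW w K0 := ⟨_, rfl⟩
  have hh0 : 0 ≤ h := by rw [hh]; exact HW_nonneg w K0
  have hhV : h ≤ V := by rw [hh, hV]; exact HW_le w K0
  obtain ⟨Y, hY⟩ : ∃ Y : ℝ, Y = (X : ℝ) / PW w := ⟨_, rfl⟩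
  have hX0 : (0 : ℝ) ≤ X := Nat.cast_nonneg X
  have hPW1 : (1 : ℝ) ≤ PW w := by exact_mod_cast PW_pos w
  have hYX : Y ≤ X := by rw [hY]; exact div_le_self hX0 hPW1
  have hY0 : 0 ≤ Y := by rw [hY]; positivity
  rw [← hY, ← hh] at g11 g12 g21 g22 ⊢
  rw [← hu]
  obtain ⟨η, hη⟩ : ∃ η, η = lam * δ + 8 / L := ⟨_, rfl⟩
  have hη0 : 0 ≤ η := by rw [hη]; positivity
  have hLc' : ct ≤ L := by rw [hLd]; exact hLc
  have h8L : 8 / L ≤ 1 / 2 := by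
    rw [div_le_iff₀ hL0]; linarith
  have hη1 : η ≤ 1 := by rw [hη]; linarith
  have hη2 : η * (2 * u + 1) * B ≤ ε / 10 := by
    rw [hη]
    have h3 : 160 * (2 * u + 1) * B / ε ≤ L := by linarith
    rw [div_le_iff₀ hε] at h3
    have e1 : (lam * δ + 8 / L) * (2 * u + 1) * B = lam * δ * ((2 * u + 1) * B) + 8 * (2 * u + 1) * B / L := by ring
    have e2 : 8 * (2 * u + 1) * B / L ≤ ε / 20 := by
      rw [div_le_iff₀ hL0]
      linarith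
    rw [e1]
    linarith
  have hη3 : η * B ≤ ε / 10 := by
    refine le_trans ?_ hη2
    have : η * B * 1 ≤ η * B * (2 * u + 1) := mul_le_mul_of_nonneg_left (by linarith) (by positivity)
    linarith
  have hYh : Y * h ≤ B * X := by
    have h3 : Y * h ≤ X * V := mul_le_mul hYX hhV hh0 hX0
    have h4 : V ≤ B := by rw [hB]; nlinarith
    have h5 : X * V ≤ X * B := mul_le_mul_of_nonneg_left h4 hX0
    linarith
  have hYh2 : Y * h ^ 2 ≤ B * X := by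
    have h3 : Y * h ^ 2 ≤ X * V ^ 2 := mul_le_mul hYX (pow_le_pow_left₀ hh0 hhV 2) (by positivity) hX0
    rw [hB]; linarith
  have hw0 : (2 : ℝ) ≤ w := by exact_mod_cast hw
  have hfin1 : η * B + 3 * e ≤ ε := by linarith
  have hfin2 : τ * ((u + 2 * u ^ 2) * B) + (2 * η * B + 4 * η * (2 * u + 1) * B + 6 * e) ≤ ε := by
    have q1 : 2 * η * B = 2 * (η * B) := by ring
    have q2 : 4 * η * (2 * u + 1) * B = 4 * (η * (2 * u + 1) * B) := by ring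
    rw [q1, q2]
    linarith
  have key := arCM X Y h B u (2 * ((M1 - 1 : ℕ) : ℝ) / L) (2 * ((M2 + 2 : ℕ) : ℝ) / L) η (2 / w) e τ (CC (PW w) K0 (AA X) (Nat.sqrt X) NC)
    ((((AA X : ℕ) : ℝ) ^ 2 + 2 * (Nat.sqrt X : ℝ) + 1) * (2 * (lam * Real.log X) + 1))
    ((((AA X : ℕ) : ℝ) ^ 2 + 2 * (Nat.sqrt X : ℝ) + 1) * (2 * (lam * Real.log X) + 1) ^ 2)
    (SS1L w K0 (AA X) (Nat.sqrt X) (M1 - 1)) (SS1L w K0 (AA X) (Nat.sqrt X) (M2 + 2))
    (SS2L w K0 (AA X) (Nat.sqrt X) (M1 - 1)) (SS2L w K0 (AA X) (Nat.sqrt X) (M2 + 2))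
    (CL (PW w) K0 X (NO u)) (CL (PW w) K0 X (fun K => NO u K ^ 2)) ε
    hX0 hY0 hh0 hYh hYh2 (by linarith) hu0.le (by positivity)
    (by rw [div_le_iff₀ hL0, hm1c, hu]; linarith) (by rw [le_div_iff₀ hL0, hu]; push_cast; linarith)
    (by
      rw [hm1c, hu, hη, sub_le_iff_le_add]
      have e1 : lam * δ + 8 / L + 2 * ((M1 : ℝ) - 1) / L = (lam * δ * L + 8 + 2 * ((M1 : ℝ) - 1)) / L := by field_simp
      rw [e1, le_div_iff₀ hL0]
      linarith)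
    (by
      rw [hu, hη, sub_le_iff_le_add, div_le_iff₀ hL0, add_mul, add_mul, div_mul_cancel₀ _ hL0.ne']
      push_cast
      have : 0 ≤ lam * δ * L := by positivity
      linarith)
    hη1 hη0 (by positivity) (by rw [div_le_one (by linarith)]; exact hw0) he0.le hτ0 hτ1
    (by rw [hLd]; exact g11) (by rw [hLd]; exact g12)
    (by rw [hLd]; exact g21) (by rw [hLd]; exact g22)
    (by rw [hu]; exact s1) (by rw [hu]; refine s2.trans (le_of_eq ?_); ring) (by rw [hu]; exact s3)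
    (by rw [hu]; refine s4.trans (le_of_eq ?_); ring) (hcc.trans T3) ?_ T1 T2 hfin1 hfin2
  · obtain ⟨k1, k2⟩ := key
    refine ⟨k1, ?_⟩
    exact k2
  · refine le_trans ?_ T4
    apply mul_le_mul_of_nonneg_left _ (by positivity)
    linarith

end Pool.Agent.X40.OS
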