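import Pool.Agent.X40.OS.O5
import Pool.Agent.X40.VAR.V22

/-!
One-sided windows, even `K`: the variance.
-/

set_option autoImplicit false

namespace Pool.Agent.X40.OS

open Finset Filter Topology
open Pool.Agent.H373R2.T7 (pz Vz lamz mem_pz Vz_inv_small)
open Pool.Agent.TH892.OW (pz_mono Vz_anti one_le_Vz_inv)
open Pool.Agent.TH892.SW (HP rk root_card prod_rk js_le HP_nonneg)
open Pool.Agent.H442R2.EHI (evt_log_pow evt_log_ge)
open Pool.Agent.X40.VAR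

/-- the local factor of the restriction to even integers -/
noncomputable def fe (p n : ℕ) : ℝ := if p = 2 then (if n % 2 = 0 then 1 else 0) else gp (n : ℤ) p

lemma fe_prod (w n : ℕ) (hw : 2 ≤ w) : (if n % 2 = 0 then HP (n : ℤ) w else 0) = ∏ p ∈ pz w, fe p n := by
  have h2 : 2 ∈ pz w := mem_pz.2 ⟨hw, Nat.prime_two⟩
  rw [HP_gp, ← mul_prod_erase _ _ h2, ← mul_prod_erase _ (fun p => fe p n) h2]
  have e : ∏ p ∈ (pz w).erase 2, fe p n = ∏ p ∈ (pz w).erase 2, gp (n : ℤ) p := by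
    refine prod_congr rfl fun p hp => ?_
    unfold fe
    rw [if_neg (mem_erase.1 hp).1]
  have e1 : gp (n : ℤ) 2 = 1 := by unfold gp; simp
  rw [e, e1, one_mul]
  unfold fe
  rw [if_pos rfl]
  split_ifs <;> simp

lemma HP_mean_even (w : ℕ) (hw : 2 ≤ w) :
    ∑ n ∈ (range (PW w)).filter (fun n => n % 2 = 0), HP (n : ℤ) w = (PW w : ℝ) / 2 := by
  rw [sum_filter]
  rw [sum_congr rfl fun n _ => fe_prod w n hw]
  have h := crt_prod (pz w) (fun p hp => (mem_pz.1 hp).2) (fun p n => fe p n) (fun p hp n => by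
    unfold fe
    by_cases h : p = 2
    · subst h
      simp only [if_true, Nat.mod_mod]
    · simp only [if_neg h]
      exact gp_per p n)
  have e : PW w = ∏ p ∈ pz w, p := rfl
  rw [e, h]
  have h2 : 2 ∈ pz w := mem_pz.2 ⟨hw, Nat.prime_two⟩
  rw [← mul_prod_erase _ _ h2]
  push_cast
  rw [← mul_prod_erase (pz w) (fun p => (p : ℝ)) h2]
  have e1 : ∑ n ∈ range 2, fe 2 n = 1 := by
    rw [sum_range_succ, sum_range_succ, sum_range_zero]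
    unfold fe
    norm_num
  have e2 : ∏ p ∈ (pz w).erase 2, ∑ n ∈ range p, fe p n = ∏ p ∈ (pz w).erase 2, (p : ℝ) := by
    refine prod_congr rfl fun p hp => ?_
    rw [mem_erase] at hp
    rw [← sum_gp p (mem_pz.1 hp.2).2]
    refine sum_congr rfl fun n _ => ?_
    unfold fe
    rw [if_neg hp.1]
  rw [e1, e2]
  push_cast
  ring

lemma two_dvd_PW (w : ℕ) (hw : 2 ≤ w) : 2 ∣ PW w := dvd_prod_of_mem _ (mem_pz.2 ⟨hw, Nat.prime_two⟩)

/-- splitting the even integers into classes -/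
lemma CL_split_even (w : ℕ) (hw : 2 ≤ w) (X : ℕ) (F : ℕ → ℝ) :
    ∑ K0 ∈ (range (PW w)).filter (fun n => n % 2 = 0), CL (PW w) (K0 : ℤ) X F = ∑ K ∈ (Icc 1 X).filter (fun n => n % 2 = 0), F K := by
  have h1 : ∑ K ∈ (Icc 1 X).filter (fun n => n % 2 = 0), F K = ∑ K ∈ Icc 1 X, (if K % 2 = 0 then F K else 0) := by
    rw [sum_filter]
  rw [h1, ← CL_split (PW w) (PW_pos w) X (fun K => if K % 2 = 0 then F K else 0), sum_filter]
  refine sum_congr rfl fun K0 _ => ?_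
  unfold CL
  have h2 : ∀ K : ℕ, ((PW w : ℕ) : ℤ) ∣ (K : ℤ) - K0 → (K % 2 = 0 ↔ K0 % 2 = 0) := by
    intro K hK
    have h3 : ((2 : ℕ) : ℤ) ∣ (K : ℤ) - K0 := (Int.natCast_dvd_natCast.2 (two_dvd_PW w hw)).trans hK
    omega
  split_ifs with h
  · refine sum_congr rfl fun K _ => ?_
    by_cases hK : ((PW w : ℕ) : ℤ) ∣ (K : ℤ) - K0
    · simp only [if_pos hK, if_pos ((h2 K hK).2 h)]
    · simp only [if_neg hK]
  · symm
    apply sum_eq_zero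
    intro K _
    by_cases hK : ((PW w : ℕ) : ℤ) ∣ (K : ℤ) - K0
    · simp only [if_pos hK, if_neg (fun h' => h ((h2 K hK).1 h'))]
    · simp only [if_neg hK]

theorem S1_even (lam ε : ℝ) (hlam : 0 < lam) (hε : 0 < ε) : ∃ w0 : ℕ, ∀ w : ℕ, w0 ≤ w → 2 ≤ w → ∃ X0 : ℕ, ∀ X : ℕ, X0 ≤ X →
    |∑ K ∈ (Icc 1 X).filter (fun n => n % 2 = 0), (NO lam K - lam * HP (K : ℤ) w) ^ 2 - lam / 2 * X| ≤ ε * X := by
  obtain ⟨u, hu⟩ : ∃ u, u = lam := ⟨_, rfl⟩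
  have hu0 : 0 < u := by rw [hu]; positivity
  obtain ⟨w0, hw0⟩ := exists_nat_ge (6 * u ^ 2 * 4 / ε)
  refine ⟨w0, fun w hww hw2 => ?_⟩
  have hwr : (2 : ℝ) ≤ w := by exact_mod_cast hw2
  have hw1 : 6 * u ^ 2 * 4 / ε ≤ w := hw0.trans (by exact_mod_cast hww)
  have hPW := PW_pos w
  obtain ⟨W, hW⟩ : ∃ W : ℝ, W = (PW w : ℝ) := ⟨_, rfl⟩
  have hW1 : 1 ≤ W := by rw [hW]; exact_mod_cast hPW
  obtain ⟨e, he⟩ : ∃ e, e = ε / (4 * (W * (1 + 2 * u))) := ⟨_, rfl⟩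
  have he0 : 0 < e := by rw [he]; positivity
  obtain ⟨X1, hX1⟩ := CML w hw2 lam hlam e he0
  obtain ⟨X2, hX2⟩ := exists_nat_ge (3 * u ^ 2 * W * 4 / ε)
  refine ⟨max X1 X2, fun X hX => ?_⟩
  have hCM := hX1 X ((le_max_left _ _).trans hX)
  have hXb : 3 * u ^ 2 * W * 4 / ε ≤ X := hX2.trans (by exact_mod_cast (le_max_right _ _).trans hX)
  have hX0 : (0 : ℝ) ≤ X := Nat.cast_nonneg X
  rw [← hu]
  rw [← hu, ← hW] at hCM
  obtain ⟨Y, hY⟩ : ∃ Y : ℝ, Y = (X : ℝ) / W := ⟨_, rfl⟩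
  rw [← hY] at hCM
  have hY0 : 0 ≤ Y := by rw [hY]; positivity
  -- each class
  have one : ∀ K0 ∈ (range (PW w)).filter (fun n => n % 2 = 0), |CL (PW w) (K0 : ℤ) X (fun K => (NO u K - u * HP (K : ℤ) w) ^ 2) -
      u * Y * HP (K0 : ℤ) w| ≤ 2 / w * (Y * (u ^ 2 * HP (K0 : ℤ) w ^ 2)) + e * X + 2 * (u * HP (K0 : ℤ) w) * (e * X) +
        (u * HP (K0 : ℤ) w) ^ 2 := by
    intro K0 _
    rw [class_sq]
    obtain ⟨c1, c2⟩ := hCM K0
    have c3 := CL_one (PW w) hPW K0 X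
    rw [← hW, ← hY] at c3
    rw [HW_eq] at c1 c2
    have hh := HP_nonneg (K0 : ℤ) w
    obtain ⟨h, hh'⟩ : ∃ h, h = HP (K0 : ℤ) w := ⟨_, rfl⟩
    rw [← hh'] at c1 c2 hh ⊢
    obtain ⟨c1a, c1b⟩ := abs_le.1 c1
    obtain ⟨c2a, c2b⟩ := abs_le.1 c2
    obtain ⟨c3a, c3b⟩ := abs_le.1 c3
    have d1 : 2 * (u * h) * (CL (PW w) (K0 : ℤ) X (NO u) - Y * u * h) ≤ 2 * (u * h) * (e * X) :=
      mul_le_mul_of_nonneg_left c1b (by positivity)
    have d2 : 2 * (u * h) * (-(e * X)) ≤ 2 * (u * h) * (CL (PW w) (K0 : ℤ) X (NO u) - Y * u * h) :=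
      mul_le_mul_of_nonneg_left c1a (by positivity)
    have d3 : (u * h) ^ 2 * (CL (PW w) (K0 : ℤ) X (fun _ => 1) - Y) ≤ (u * h) ^ 2 * 1 := mul_le_mul_of_nonneg_left c3b (by positivity)
    have d4 : (u * h) ^ 2 * (-1) ≤ (u * h) ^ 2 * (CL (PW w) (K0 : ℤ) X (fun _ => 1) - Y) := mul_le_mul_of_nonneg_left c3a (by positivity)
    rw [abs_le]
    constructor <;> nlinarith
  -- sum over the classes
  rw [← CL_split_even w hw2 X (fun K => (NO u K - u * HP (K : ℤ) w) ^ 2)]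
  have hmean := HP_mean_even w hw2
  have hmean' : ∑ K0 ∈ (range (PW w)).filter (fun n => n % 2 = 0), HP (K0 : ℤ) w ≤ W := by
    rw [hmean, ← hW]; linarith
  have hsq : ∑ K0 ∈ (range (PW w)).filter (fun n => n % 2 = 0), HP (K0 : ℤ) w ^ 2 ≤ 3 * W := by
    rw [hW]
    refine le_trans ?_ (HP_sq_mean w hw2)
    exact sum_le_sum_of_subset_of_nonneg (filter_subset _ _) (fun _ _ _ => sq_nonneg _)
  rw [← hW] at hmean
  have hmain : u / 2 * X = ∑ K0 ∈ (range (PW w)).filter (fun n => n % 2 = 0), u * Y * HP (K0 : ℤ) w := by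
    rw [← mul_sum, hmean, hY]
    field_simp
  rw [hmain, ← sum_sub_distrib]
  refine (abs_sum_le_sum_abs _ _).trans ?_
  refine (sum_le_sum one).trans ?_
  obtain ⟨T, hT⟩ : ∃ T : Finset ℕ, T = (range (PW w)).filter (fun n => n % 2 = 0) := ⟨_, rfl⟩
  have hTc : ((#T : ℕ) : ℝ) ≤ W := by
    rw [hW, hT]
    have h1 := card_filter_le (range (PW w)) (fun n => n % 2 = 0)
    rw [card_range] at h1
    exact_mod_cast h1
  rw [← hT] at hmean' hsq ⊢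
  have e1 : ∑ K0 ∈ T, (2 / w * (Y * (u ^ 2 * HP (K0 : ℤ) w ^ 2)) + e * X + 2 * (u * HP (K0 : ℤ) w) * (e * X) +
        (u * HP (K0 : ℤ) w) ^ 2) = 2 / w * (Y * u ^ 2) * ∑ K0 ∈ T, HP (K0 : ℤ) w ^ 2 + #T * (e * X) +
        2 * u * (e * X) * ∑ K0 ∈ T, HP (K0 : ℤ) w + u ^ 2 * ∑ K0 ∈ T, HP (K0 : ℤ) w ^ 2 := by
    have hWs : (#T : ℝ) * (e * X) = ∑ _K0 ∈ T, e * X := by rw [sum_const, nsmul_eq_mul]
    rw [hWs, mul_sum, mul_sum, mul_sum, ← sum_add_distrib, ← sum_add_distrib, ← sum_add_distrib]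
    refine sum_congr rfl fun K0 _ => ?_
    ring
  rw [e1]
  have hw00 : (0 : ℝ) < w := by linarith
  have heX : 0 ≤ e * X := by positivity
  have b1 : 2 / w * (Y * u ^ 2) * ∑ K0 ∈ T, HP (K0 : ℤ) w ^ 2 ≤ ε / 4 * X := by
    have c1 : 2 / w * (Y * u ^ 2) * ∑ K0 ∈ T, HP (K0 : ℤ) w ^ 2 ≤ 2 / w * (Y * u ^ 2) * (3 * W) :=
      mul_le_mul_of_nonneg_left hsq (by positivity)
    refine c1.trans ?_
    have e2 : 2 / w * (Y * u ^ 2) * (3 * W) = 6 * u ^ 2 / w * X := by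
      rw [hY]; field_simp; ring
    rw [e2]
    apply mul_le_mul_of_nonneg_right _ hX0
    rw [div_le_iff₀ hw00]
    rw [div_le_iff₀ hε] at hw1
    linarith
  have b2 : W * (e * X) + 2 * u * (e * X) * W = ε / 4 * X := by
    rw [he]
    field_simp
  have b2a : (#T : ℝ) * (e * X) ≤ W * (e * X) := mul_le_mul_of_nonneg_right hTc heX
  have b2b : 2 * u * (e * X) * ∑ K0 ∈ T, HP (K0 : ℤ) w ≤ 2 * u * (e * X) * W := mul_le_mul_of_nonneg_left hmean' (by positivity)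
  have b3 : u ^ 2 * ∑ K0 ∈ T, HP (K0 : ℤ) w ^ 2 ≤ ε / 4 * X := by
    have c1 : u ^ 2 * ∑ K0 ∈ T, HP (K0 : ℤ) w ^ 2 ≤ u ^ 2 * (3 * W) := mul_le_mul_of_nonneg_left hsq (by positivity)
    refine c1.trans ?_
    rw [div_le_iff₀ hε] at hXb
    linarith
  have b4 : 0 ≤ ε / 4 * X := by positivity
  linarith

theorem var_even (U : ℕ) (lam ε : ℝ) (hlam : 0 < lam) (hε : 0 < ε) : ∃ X0 : ℕ, ∀ X : ℕ, X0 ≤ X →
    ∃ Bad : Finset ℕ, Bad ⊆ (Icc 1 X).filter (fun n => n % 2 = 0) ∧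
    (#Bad : ℝ) ≤ X / Real.log X ^ U ∧ ∃ h : ℕ → ℝ,
      (∀ K ∈ (Icc 1 X).filter (fun n => n % 2 = 0), K ∉ Bad → ¬ IsSquare (K : ℤ) ∧ 0 < h K ∧ Tendsto (fun N => HP (K : ℤ) N) atTop (𝓝 (h K))) ∧
      |∑ K ∈ (Icc 1 X).filter (fun n => n % 2 = 0) \ Bad, (NO lam K - lam * h K) ^ 2 - lam / 2 * X| ≤ ε * X := by
  classical
  obtain ⟨u, hu⟩ : ∃ u, u = lam := ⟨_, rfl⟩
  have hu0 : 0 < u := by rw [hu]; positivity
  obtain ⟨τ, hτ⟩ : ∃ τ, τ = min 1 (ε / (4 * u)) := ⟨_, rfl⟩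
  have hτ0 : 0 < τ := by rw [hτ]; positivity
  have hτ1 : τ ≤ 1 := by rw [hτ]; exact min_le_left _ _
  have hτ2 : τ * u ≤ ε / 4 := by
    have h1 : τ ≤ ε / (4 * u) := by rw [hτ]; exact min_le_right _ _
    rw [le_div_iff₀ (by positivity)] at h1
    linarith
  obtain ⟨w0, hw0⟩ := S1_even lam (ε / 16) hlam (by positivity)
  obtain ⟨w1, hw1⟩ := exists_nat_ge (u ^ 2 * 36 * (1 + 1 / τ) * 8 / ε)
  obtain ⟨w, hw⟩ : ∃ w, w = w0 + w1 + 2 := ⟨_, rfl⟩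
  have hw2 : 2 ≤ w := by omega
  obtain ⟨X1, hX1⟩ := hw0 w (by omega) hw2
  obtain ⟨κ, hκ⟩ : ∃ κ, κ = ε / (u ^ 2 * (1 + 1 / τ) * 8) := ⟨_, rfl⟩
  have hκ0 : 0 < κ := by rw [hκ]; positivity
  obtain ⟨X2, hX2⟩ := h_mean (U + 3) w hw2 κ hκ0
  have hwκ : u ^ 2 * (36 / ((w : ℝ) - 1) + κ) * (1 + 1 / τ) ≤ ε / 4 := by
    have hwr : (w : ℝ) - 1 = w0 + w1 + 1 := by rw [hw]; push_cast; ring
    have hw3 : 0 < (w : ℝ) - 1 := by rw [hwr]; positivity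
    have hw4 : u ^ 2 * 36 * (1 + 1 / τ) * 8 / ε ≤ (w : ℝ) - 1 := by
      have : (0 : ℝ) ≤ w0 := Nat.cast_nonneg _
      linarith
    have e1 : u ^ 2 * (36 / ((w : ℝ) - 1) + κ) * (1 + 1 / τ) = u ^ 2 * 36 * (1 + 1 / τ) / ((w : ℝ) - 1) + κ * (u ^ 2 * (1 + 1 / τ)) := by
      field_simp
    have e2 : κ * (u ^ 2 * (1 + 1 / τ)) = ε / 8 := by rw [hκ]; field_simp
    have e3 : u ^ 2 * 36 * (1 + 1 / τ) / ((w : ℝ) - 1) ≤ ε / 8 := by
      rw [div_le_iff₀ hw3]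
      rw [div_le_iff₀ hε] at hw4
      linarith
    rw [e1, e2]
    linarith
  obtain ⟨V, hV⟩ : ∃ V, V = (Vz w)⁻¹ := ⟨_, rfl⟩
  have hV1 : 1 ≤ V := by rw [hV]; exact one_le_Vz_inv w
  obtain ⟨X3, hX3⟩ := eventually_atTop.1 ((evt_log_ge 2).and (evt_log_ge (16 * (2 * lam + 1 + u * V) ^ 2 / ε)))
  refine ⟨max (max X1 X2) X3, fun X hX => ?_⟩
  have h1 := hX1 X (((le_max_left _ _).trans (le_max_left _ _)).trans hX)
  obtain ⟨Bad0, hB1, hB2, h, hh, hD⟩ := hX2 X (((le_max_right _ _).trans (le_max_left _ _)).trans hX)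
  obtain ⟨hL2, hLε⟩ := hX3 X ((le_max_right _ _).trans hX)
  obtain ⟨l, hl⟩ : ∃ l, l = Real.log X := ⟨_, rfl⟩
  rw [← hl] at hB2 hL2 hLε ⊢
  have hl0 : 0 < l := by linarith
  have hl1 : 1 ≤ l := by linarith
  have hX0 : (0 : ℝ) ≤ X := Nat.cast_nonneg X
  rw [← hu] at h1 ⊢
  obtain ⟨Ev, hEv⟩ : ∃ Ev : Finset ℕ, Ev = (Icc 1 X).filter (fun n => n % 2 = 0) := ⟨_, rfl⟩
  rw [← hEv] at h1 ⊢
  have hEvs : Ev ⊆ Icc 1 X := by rw [hEv]; exact filter_subset _ _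
  obtain ⟨Bad, hBad⟩ : ∃ Bad : Finset ℕ, Bad = Bad0 ∩ Ev := ⟨_, rfl⟩
  have hBE : Bad ⊆ Ev := by rw [hBad]; exact inter_subset_right
  have hB2' : (#Bad : ℝ) ≤ X / l ^ (U + 3) := by
    refine le_trans ?_ hB2
    rw [hBad]
    exact_mod_cast card_le_card inter_subset_left
  -- the exceptional set
  have hbad : ∑ K ∈ Bad, (NO u K - u * HP (K : ℤ) w) ^ 2 ≤ ε / 16 * X := by
    have a1 : ∀ K ∈ Bad, (NO u K - u * HP (K : ℤ) w) ^ 2 ≤ ((2 * lam + 1 + u * V) * l) ^ 2 := by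
      intro K hK
      have hKX := mem_Icc.1 (hEvs (hBE hK))
      have b1 := NO_triv u l hu0 K (by
        rw [hl]
        exact Real.log_le_log (by exact_mod_cast hKX.1) (by exact_mod_cast hKX.2)) hl0.le
      have b2 := NO_nonneg u K
      have b3 := HP_nonneg K w
      have b4 : HP (K : ℤ) w ≤ V := by rw [hV]; exact HP_le K w
      have b5 : NO u K ≤ (2 * lam + 1) * l := by rw [hu] at b1 ⊢; nlinarith
      have b6 : u * HP (K : ℤ) w ≤ u * V * l := by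
        have c1 : u * HP (K : ℤ) w ≤ u * V := mul_le_mul_of_nonneg_left b4 hu0.le
        have c2 : u * V * 1 ≤ u * V * l := mul_le_mul_of_nonneg_left hl1 (by positivity)
        linarith
      have b7 : 0 ≤ u * HP (K : ℤ) w := by positivity
      have b8 : 0 ≤ u * V * l := by positivity
      have b9 : 0 ≤ (2 * lam + 1) * l := by positivity
      apply sq_le_sq' <;> nlinarith
    refine (sum_le_sum a1).trans ?_
    rw [sum_const, nsmul_eq_mul]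
    have a2 : (#Bad : ℝ) * ((2 * lam + 1 + u * V) * l) ^ 2 ≤ X / l ^ (U + 3) * ((2 * lam + 1 + u * V) * l) ^ 2 :=
      mul_le_mul_of_nonneg_right hB2' (by positivity)
    refine a2.trans ?_
    have e1 : X / l ^ (U + 3) * ((2 * lam + 1 + u * V) * l) ^ 2 = X * ((2 * lam + 1 + u * V) ^ 2 / l) / l ^ U := by
      rw [pow_add]; field_simp
    rw [e1]
    have a3 : (2 * lam + 1 + u * V) ^ 2 / l ≤ ε / 16 := by
      rw [div_le_iff₀ hl0]
      rw [div_le_iff₀ hε] at hLε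
      linarith
    have a4 : X * ((2 * lam + 1 + u * V) ^ 2 / l) / l ^ U ≤ X * ((2 * lam + 1 + u * V) ^ 2 / l) :=
      div_le_self (by positivity) (one_le_pow₀ hl1)
    have a5 : X * ((2 * lam + 1 + u * V) ^ 2 / l) ≤ X * (ε / 16) := mul_le_mul_of_nonneg_left a3 hX0
    linarith
  have hBU : (#Bad : ℝ) ≤ X / l ^ U := by
    refine hB2'.trans ?_
    apply div_le_div_of_nonneg_left hX0 (by positivity)
    exact pow_le_pow_right₀ hl1 (by omega)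
  refine ⟨Bad, hBE, hBU, h, ?_, ?_⟩
  · intro K hK hKB
    exact hh K (hEvs hK) (fun hc => hKB (by rw [hBad]; exact mem_inter.2 ⟨hc, hK⟩))
  have e1 : ∀ K : ℕ, NO u K - u * h K = (NO u K - u * HP (K : ℤ) w) + u * (HP (K : ℤ) w - h K) := fun K => by ring
  simp_rw [e1]
  apply mink (Ev \ Bad) (fun K => NO u K - u * HP (K : ℤ) w) (fun K => u * (HP (K : ℤ) w - h K)) τ (u / 2 * X) (ε / 8 * X)
    (u ^ 2 * ((36 / ((w : ℝ) - 1) + κ) * X)) (ε * X) hτ0 hτ1 (by positivity)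
  · have a1 : ∑ K ∈ Ev \ Bad, (NO u K - u * HP (K : ℤ) w) ^ 2 =
        ∑ K ∈ Ev, (NO u K - u * HP (K : ℤ) w) ^ 2 - ∑ K ∈ Bad, (NO u K - u * HP (K : ℤ) w) ^ 2 := by
      rw [← sum_sdiff hBE]; ring
    rw [a1]
    have a2 : 0 ≤ ∑ K ∈ Bad, (NO u K - u * HP (K : ℤ) w) ^ 2 := sum_nonneg fun _ _ => sq_nonneg _
    have a3 := abs_le.1 h1
    have a4 : 0 ≤ ε * X := by positivity
    rw [abs_le]
    constructor <;> linarith
  · have a1 : ∀ K : ℕ, (u * (HP (K : ℤ) w - h K)) ^ 2 = u ^ 2 * (HP (K : ℤ) w - h K) ^ 2 := fun K => by ring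
    simp_rw [a1]
    rw [← mul_sum]
    refine mul_le_mul_of_nonneg_left (le_trans ?_ hD) (by positivity)
    apply sum_le_sum_of_subset_of_nonneg _ (fun _ _ _ => sq_nonneg _)
    intro K hK
    rw [Finset.mem_sdiff] at hK ⊢
    exact ⟨hEvs hK.1, fun hc => hK.2 (by rw [hBad]; exact mem_inter.2 ⟨hc, hK.1⟩)⟩
  · have := mul_le_mul_of_nonneg_right hτ2 hX0
    have h3 : 0 ≤ τ * u * X := by positivity
    linarith
  · have : 0 ≤ ε * X := by positivity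
    linarith
  · have := mul_le_mul_of_nonneg_right hwκ hX0
    have e2 : (1 + 1 / τ) * (u ^ 2 * ((36 / ((w : ℝ) - 1) + κ) * X)) = u ^ 2 * (36 / ((w : ℝ) - 1) + κ) * (1 + 1 / τ) * X := by ring
    rw [e2]
    linarith

end Pool.Agent.X40.OS
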