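import Pool.Agent.X40.OS.O5
import Pool.Agent.X40.VAR.V23

/-!
One-sided windows, even `K`: positive proportions without primes, and with many primes.
-/

set_option autoImplicit false

namespace Pool.Agent.X40.OS

open Finset Filter Topology
open Pool.Agent.H373R2.T7 (pz Vz lamz mem_pz Vz_inv_small)
open Pool.Agent.TH892.OW (pz_mono Vz_anti one_le_Vz_inv Vz_pos)
open Pool.Agent.TH892.SW (HP rk root_card prod_rk js_le HP_nonneg vn)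
open Pool.Agent.X40.HLK (P1 P1_nonneg P1_le)
open Pool.Agent.X40.VAR

lemma two_dvd_PW' (w : ℕ) (hw : 2 ≤ w) : 2 ∣ PW w := dvd_prod_of_mem _ (mem_pz.2 ⟨hw, Nat.prime_two⟩)

lemma HP_four (w : ℕ) : HP ((4 : ℕ) : ℤ) w = HP 1 w := by
  rw [HP_gp, HP_gp]
  refine prod_congr rfl fun p hp => ?_
  unfold gp
  by_cases h2 : p = 2
  · rw [if_neg (not_not.2 h2), if_neg (not_not.2 h2)]
  · rw [if_pos h2, if_pos h2]
    have hp2 := (mem_pz.1 hp).2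
    have h4 : jacobiSym ((4 : ℕ) : ℤ) p = 1 := by
      have e : ((4 : ℕ) : ℤ) = 2 ^ 2 := by norm_num
      rw [e]
      apply jacobiSym.sq_one'
      have h5 : Nat.Coprime 2 p := (Nat.coprime_primes Nat.prime_two hp2).2 (fun h => h2 h.symm)
      have h6 : Nat.gcd 2 p = 1 := h5
      simpa [Int.gcd] using h6
    rw [h4, jacobiSym.one_left]

lemma HP_nonres_even (w : ℕ) (hw : 2 ≤ w) : ∃ K0 : ℕ, K0 % 2 = 0 ∧ HP (K0 : ℤ) w = (Vz w)⁻¹ / 2 := by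
  classical
  have hex : ∀ p : ℕ, ∃ n : ℕ, (p ∈ pz w → p ≠ 2 → jacobiSym (n : ℤ) p = -1) ∧ (p = 2 → n = 0) := by
    intro p
    by_cases h : p ∈ pz w ∧ p ≠ 2
    · obtain ⟨n, hn⟩ := exists_nonres p (mem_pz.1 h.1).2 h.2
      exact ⟨n, fun _ _ => hn, fun h2 => absurd h2 h.2⟩
    · exact ⟨0, fun h1 h2 => absurd ⟨h1, h2⟩ h, fun _ => rfl⟩
  choose a ha using hex
  obtain ⟨K0, hK0⟩ := Nat.chineseRemainderOfFinset a (fun p => p) (pz w) (fun p hp => (mem_pz.1 hp).2.ne_zero)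
    (fun p hp q hq hpq => (Nat.coprime_primes (mem_pz.1 (mem_coe.1 hp)).2 (mem_pz.1 (mem_coe.1 hq)).2).2 hpq)
  have h2 : 2 ∈ pz w := mem_pz.2 ⟨hw, Nat.prime_two⟩
  refine ⟨K0, ?_, ?_⟩
  · have h6 : K0 % 2 = a 2 % 2 := hK0 2 h2
    rw [h6, (ha 2).2 rfl]
  rw [HP_gp, ← mul_prod_erase _ _ h2]
  unfold Vz
  rw [← prod_inv_distrib, ← mul_prod_erase (pz w) (fun p : ℕ => (1 - 1 / (p : ℝ))⁻¹) h2]
  have e : gp (K0 : ℤ) 2 = 1 := by unfold gp; simp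
  rw [e, one_mul]
  have e2 : (1 - 1 / ((2 : ℕ) : ℝ))⁻¹ = 2 := by norm_num
  rw [e2, mul_comm (2 : ℝ), mul_div_assoc, div_self two_ne_zero, mul_one]
  refine prod_congr rfl fun p hp => ?_
  rw [mem_erase] at hp
  have hp3 : (3 : ℝ) ≤ p := by
    have h3 := (mem_pz.1 hp.2).2.two_le
    have h4 := hp.1
    exact_mod_cast (by omega : 3 ≤ p)
  have h5 : jacobiSym (K0 : ℤ) p = -1 := by
    have h6 : K0 % p = a p % p := hK0 p hp.2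
    rw [← (ha p).1 hp.2 hp.1, jacobiSym.mod_left (K0 : ℤ) p, jacobiSym.mod_left (a p : ℤ) p]
    have h7 : ((K0 : ℤ) % (p : ℤ)) = ((a p : ℤ) % (p : ℤ)) := by exact_mod_cast h6
    rw [h7]
  unfold gp
  rw [if_pos hp.1, h5]
  push_cast
  have h8 : (p : ℝ) - 1 ≠ 0 := by linarith
  have h9 : (p : ℝ) ≠ 0 := by linarith
  have h10 : 1 - 1 / (p : ℝ) = ((p : ℝ) - 1) / p := by field_simp
  rw [h10, inv_div]
  field_simp
  ring

lemma NO_int (lam : ℝ) (K : ℕ) : ∃ n : ℕ, NO lam K = n := by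
  classical
  unfold NO P1
  rw [sum_boole]
  exact ⟨_, rfl⟩

/-- counting in an even class -/
lemma CL_count_even (w : ℕ) (hw : 2 ≤ w) (K0 : ℕ) (hK0 : K0 % 2 = 0) (X : ℕ) (P : ℕ → Prop) [DecidablePred P] (F : ℕ → ℝ) (c : ℝ)
    (hc : 0 ≤ c) (hF : ∀ K, 0 ≤ F K) (h : ∀ K : ℕ, ((PW w : ℕ) : ℤ) ∣ (K : ℤ) - K0 → ¬ P K → c ≤ F K) :
    c * (CL (PW w) (K0 : ℤ) X (fun _ => 1) - #((Icc 1 X).filter (fun K => K % 2 = 0 ∧ P K))) ≤ CL (PW w) (K0 : ℤ) X F := by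
  classical
  have h1 : c * CL (PW w) (K0 : ℤ) X (fun _ => 1) ≤ CL (PW w) (K0 : ℤ) X F + c * #((Icc 1 X).filter (fun K => K % 2 = 0 ∧ P K)) := by
    unfold CL
    have h2 : (#((Icc 1 X).filter (fun K => K % 2 = 0 ∧ P K)) : ℝ) = ∑ K ∈ Icc 1 X, (if K % 2 = 0 ∧ P K then (1 : ℝ) else 0) := by
      rw [sum_boole]
    rw [h2, mul_sum, mul_sum, ← sum_add_distrib]
    refine sum_le_sum fun K _ => ?_
    by_cases hd : ((PW w : ℕ) : ℤ) ∣ (K : ℤ) - K0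
    · have h3 : ((2 : ℕ) : ℤ) ∣ (K : ℤ) - K0 := (Int.natCast_dvd_natCast.2 (two_dvd_PW' w hw)).trans hd
      have h4 : K % 2 = 0 := by omega
      rw [if_pos hd, if_pos hd]
      by_cases hP : P K
      · rw [if_pos ⟨h4, hP⟩]
        linarith [hF K]
      · rw [if_neg (fun h => hP h.2)]
        linarith [h K hd hP]
    · rw [if_neg hd, if_neg hd]
      split_ifs <;> linarith
  linarith

theorem none_even (lam : ℝ) (hlam : 0 < lam) : ∃ c : ℝ, 0 < c ∧ ∃ X0 : ℕ, ∀ X : ℕ, X0 ≤ X →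
    c * X ≤ #((Icc 1 X).filter (fun K => K % 2 = 0 ∧ NO lam K = 0)) := by
  classical
  obtain ⟨w0, hw0⟩ := Vz_small (1 / (16 * lam)) (by positivity)
  obtain ⟨w, hw⟩ : ∃ w, w = w0 + 2 := ⟨_, rfl⟩
  have hw2 : 2 ≤ w := by omega
  have hV := hw0 w (by omega)
  have hPW := PW_pos w
  obtain ⟨W, hW⟩ : ∃ W : ℝ, W = (PW w : ℝ) := ⟨_, rfl⟩
  have hW1 : 1 ≤ W := by rw [hW]; exact_mod_cast hPW
  have hH : lam * HP ((4 : ℕ) : ℤ) w ≤ 1 / 8 := by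
    have h1 := HP_one_le w hw2
    rw [HP_four]
    have h2 : lam * HP 1 w ≤ lam * (2 * (1 / (16 * lam))) := by
      apply mul_le_mul_of_nonneg_left _ hlam.le
      linarith
    have e : lam * (2 * (1 / (16 * lam))) = 1 / 8 := by field_simp; norm_num
    linarith
  obtain ⟨X1, hX1⟩ := CML w hw2 lam hlam (1 / (8 * W)) (by positivity)
  obtain ⟨X2, hX2⟩ := exists_nat_ge (4 * W)
  refine ⟨1 / (2 * W), by positivity, max X1 X2, fun X hX => ?_⟩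
  obtain ⟨c1, -⟩ := hX1 X ((le_max_left _ _).trans hX) ((4 : ℕ) : ℤ)
  have hXW : 4 * W ≤ X := hX2.trans (by exact_mod_cast (le_max_right _ _).trans hX)
  have hX0 : (0 : ℝ) ≤ X := Nat.cast_nonneg X
  rw [HW_eq, ← hW] at c1
  have c2 := CL_one (PW w) hPW 4 X
  rw [← hW] at c2
  have c3 := CL_count_even w hw2 4 rfl X (fun K => NO lam K = 0) (NO lam) 1 zero_le_one (fun K => NO_nonneg _ _) (by
      intro K _ hKT
      obtain ⟨n, hn⟩ := NO_int lam K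
      rw [hn] at hKT ⊢
      have : n ≠ 0 := by
        intro h0
        apply hKT
        rw [h0]; norm_num
      exact_mod_cast Nat.one_le_iff_ne_zero.2 this)
  rw [one_mul] at c3
  have c1' := (abs_le.1 c1).2
  have c2' := (abs_le.1 c2).1
  obtain ⟨Y, hY⟩ : ∃ Y, Y = (X : ℝ) / W := ⟨_, rfl⟩
  rw [← hY] at c1' c2'
  have hY4 : 4 ≤ Y := by rw [hY, le_div_iff₀ (by linarith)]; exact hXW
  have e1 : 1 / (8 * W) * X = Y / 8 := by rw [hY]; field_simp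
  have e2 : 1 / (2 * W) * X = Y / 2 := by rw [hY]; field_simp
  rw [e1] at c1'
  rw [e2]
  have e3 : Y * lam * HP ((4 : ℕ) : ℤ) w ≤ Y * (1 / 8) := by
    rw [mul_assoc]
    exact mul_le_mul_of_nonneg_left hH (by linarith)
  obtain ⟨S0, hS0⟩ : ∃ S0, S0 = CL (PW w) ((4 : ℕ) : ℤ) X (fun _ => 1) := ⟨_, rfl⟩
  obtain ⟨S1, hS1⟩ : ∃ S1, S1 = CL (PW w) ((4 : ℕ) : ℤ) X (NO lam) := ⟨_, rfl⟩
  rw [← hS1, ← hS0] at c3
  rw [← hS1] at c1'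
  rw [← hS0] at c2'
  obtain ⟨q, hq⟩ : ∃ q, q = Y * lam * HP ((4 : ℕ) : ℤ) w := ⟨_, rfl⟩
  rw [← hq] at c1' e3
  linarith

theorem many_even (lam : ℝ) (hlam : 0 < lam) (k : ℕ) : ∃ c : ℝ, 0 < c ∧ ∃ X0 : ℕ, ∀ X : ℕ, X0 ≤ X →
    c * X ≤ #((Icc 1 X).filter (fun K => K % 2 = 0 ∧ (k : ℝ) ≤ NO lam K)) := by
  classical
  obtain ⟨w0, hw0⟩ := Vz_small (lam / 2 / (64 + 2 * k)) (by positivity)
  obtain ⟨w, hw⟩ : ∃ w, w = w0 + 64 := ⟨_, rfl⟩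
  have hw2 : 2 ≤ w := by omega
  have hw64 : (64 : ℝ) ≤ w := by rw [hw]; push_cast; linarith [(Nat.cast_nonneg w0 : (0 : ℝ) ≤ w0)]
  have hV := hw0 w (by omega)
  have hVp := Vz_pos w
  have hPW := PW_pos w
  obtain ⟨W, hW⟩ : ∃ W : ℝ, W = (PW w : ℝ) := ⟨_, rfl⟩
  have hW1 : 1 ≤ W := by rw [hW]; exact_mod_cast hPW
  obtain ⟨K0, hK0e, hK0⟩ := HP_nonres_even w hw2
  obtain ⟨μ, hμ⟩ : ∃ μ, μ = lam * HP (K0 : ℤ) w := ⟨_, rfl⟩
  have hμ1 : 64 + 2 * (k : ℝ) ≤ μ := by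
    rw [hμ, hK0]
    rw [le_div_iff₀ (by positivity)] at hV
    have e : lam * ((Vz w)⁻¹ / 2) = lam / 2 / Vz w := by field_simp
    rw [e, le_div_iff₀ hVp]
    linarith
  have hk0 : (0 : ℝ) ≤ k := Nat.cast_nonneg k
  have hμ64 : 64 ≤ μ := by linarith
  obtain ⟨e, he⟩ : ∃ e, e = 1 / (W * (1 + 2 * μ)) := ⟨_, rfl⟩
  have he0 : 0 < e := by rw [he]; positivity
  obtain ⟨X1, hX1⟩ := CML w hw2 lam hlam e he0
  obtain ⟨X2, hX2⟩ := exists_nat_ge (64 * W)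
  refine ⟨1 / (2 * W), by positivity, max X1 X2, fun X hX => ?_⟩
  obtain ⟨c1, c1'⟩ := hX1 X ((le_max_left _ _).trans hX) (K0 : ℤ)
  have hXW : 64 * W ≤ X := hX2.trans (by exact_mod_cast (le_max_right _ _).trans hX)
  have hX0 : (0 : ℝ) ≤ X := Nat.cast_nonneg X
  rw [HW_eq, ← hW] at c1 c1'
  have c2 := CL_one (PW w) hPW K0 X
  rw [← hW] at c2
  obtain ⟨Y, hY⟩ : ∃ Y, Y = (X : ℝ) / W := ⟨_, rfl⟩
  rw [← hY] at c1 c1' c2
  have hY64 : 64 ≤ Y := by rw [hY, le_div_iff₀ (by linarith)]; exact hXW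
  have c4 := class_sq w X K0 (NO lam) lam
  rw [← hμ] at c4
  have c3 := CL_count_even w hw2 K0 hK0e X (fun K => (k : ℝ) ≤ NO lam K)
    (fun K => (NO lam K - lam * HP (K : ℤ) w) ^ 2) (μ ^ 2 / 4) (by positivity) (fun K => sq_nonneg _) (by
      intro K hd hKT
      rw [HP_congr w (K : ℤ) (K0 : ℤ) hd, ← hμ]
      have h1 : NO lam K < k := lt_of_not_ge hKT
      have h2 := NO_nonneg lam K
      nlinarith)
  rw [c4] at c3
  obtain ⟨h, hh⟩ : ∃ h, h = HP (K0 : ℤ) w := ⟨_, rfl⟩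
  rw [← hh] at hμ c1 c1'
  obtain ⟨S1, hS1⟩ : ∃ S1, S1 = CL (PW w) (K0 : ℤ) X (NO lam) := ⟨_, rfl⟩
  obtain ⟨S2, hS2⟩ : ∃ S2, S2 = CL (PW w) (K0 : ℤ) X (fun K => NO lam K ^ 2) := ⟨_, rfl⟩
  obtain ⟨S0, hS0⟩ : ∃ S0, S0 = CL (PW w) (K0 : ℤ) X (fun _ => 1) := ⟨_, rfl⟩
  rw [← hS1] at c1 c3
  rw [← hS2] at c1' c3
  rw [← hS0] at c2 c3
  have d1 := (abs_le.1 c1).1
  have d2 := (abs_le.1 c1').2
  have d3 := abs_le.1 c2
  have e1 : Y * lam * h = Y * μ := by rw [hμ]; ring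
  have e2 : Y * (lam * h + lam ^ 2 * h ^ 2) = Y * (μ + μ ^ 2) := by rw [hμ]; ring
  have e3 : Y * (lam ^ 2 * h ^ 2) = Y * μ ^ 2 := by rw [hμ]; ring
  rw [e1] at d1
  rw [e2, e3] at d2
  have e4 : e * X = Y / (1 + 2 * μ) := by rw [he, hY]; field_simp
  rw [e4] at d1 d2
  have e5 : 2 / w * (Y * μ ^ 2) ≤ 1 / 32 * (Y * μ ^ 2) := by
    apply mul_le_mul_of_nonneg_right _ (by positivity)
    rw [div_le_div_iff₀ (by linarith) (by norm_num)]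
    linarith
  obtain ⟨q, hq⟩ : ∃ q, q = Y / (1 + 2 * μ) := ⟨_, rfl⟩
  rw [← hq] at d1 d2
  have hqY : q + 2 * μ * q = Y := by rw [hq]; field_simp
  have hq0 : 0 ≤ q := by rw [hq]; positivity
  have d4 : S2 - 2 * μ * S1 + μ ^ 2 * S0 ≤ Y * μ + 1 / 32 * (Y * μ ^ 2) + Y + μ ^ 2 := by
    have a1 : 2 * μ * (Y * μ - q) ≤ 2 * μ * S1 := mul_le_mul_of_nonneg_left (by linarith) (by positivity)
    have a2 : μ ^ 2 * S0 ≤ μ ^ 2 * (Y + 1) := mul_le_mul_of_nonneg_left (by linarith) (by positivity)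
    nlinarith
  have d5 : Y * μ ≤ 1 / 64 * (Y * μ ^ 2) := by nlinarith [mul_nonneg (show 0 ≤ Y by linarith) (show 0 ≤ μ by linarith)]
  have d6 : Y ≤ 1 / 4096 * (Y * μ ^ 2) := by nlinarith [mul_nonneg (show 0 ≤ Y by linarith) (show 0 ≤ μ by linarith)]
  have d7 : μ ^ 2 ≤ 1 / 64 * (Y * μ ^ 2) := by nlinarith [sq_nonneg μ]
  have d8 : μ ^ 2 / 4 * (S0 - #((Icc 1 X).filter (fun K => K % 2 = 0 ∧ (k : ℝ) ≤ NO lam K))) ≤ μ ^ 2 / 4 * (Y * (5 / 16)) := by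
    refine c3.trans ?_
    linarith
  have hμ2 : 0 < μ ^ 2 / 4 := by positivity
  have d9 := le_of_mul_le_mul_left d8 hμ2
  have e6 : 1 / (2 * W) * X = Y / 2 := by rw [hY]; field_simp
  rw [e6]
  linarith

end Pool.Agent.X40.OS
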